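import Mathlib
import Pool.Agent.H72.Co.C9
set_option autoImplicit false

/-! Invariant polynomials of a compact Lie algebra: the system of pairs. -/

open MeasureTheory Set Metric
open scoped ENNReal RealInnerProductSpace

namespace Pool.Agent.H72.Li

open MvPolynomial (pderiv)
open Pool.Agent.H789R2.FR (E sg T sg_finite sg_ae sg_inv)
open Pool.Agent.W5h55.SH
open Pool.Agent.H72.Co

variable {n l d : ℕ}

/-- A bracket on Euclidean space which makes it a Lie algebra with invariant inner product. -/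
structure CLie (B : E n →ₗ[ℝ] E n →ₗ[ℝ] E n) : Prop where
  alt : ∀ x, B x x = 0
  jac : ∀ x y z, B x (B y z) = B (B x y) z + B y (B x z)
  inv : ∀ x y z, (⟪B x y, z⟫ : ℝ) = -⟪y, B x z⟫

theorem CLie.skew {B : E n →ₗ[ℝ] E n →ₗ[ℝ] E n} (hB : CLie B) (x y : E n) : B x y = -B y x := by
  have h := hB.alt (x + y)
  simp only [map_add, LinearMap.add_apply, hB.alt, zero_add, add_zero] at h
  first
  | exact eq_neg_of_add_eq_zero_left h
  | exact eq_neg_of_add_eq_zero_right h

/-- the unit vectors -/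
noncomputable abbrev un (i : Fin n) : E n := EuclideanSpace.single i (1 : ℝ)

theorem sum_un (x : E n) : x = ∑ i, x i • (un i : E n) := by
  ext j
  simp [Finset.sum_apply, Pi.single_apply]

/-- the vector field `x ↦ A x` as a derivation -/
noncomputable def Xi (A : E n →ₗ[ℝ] E n) :
    Derivation ℂ (MvPolynomial (Fin n) ℂ) (MvPolynomial (Fin n) ℂ) :=
  MvPolynomial.mkDerivation ℂ fun i => ∑ j, MvPolynomial.C (((A (un j)) i : ℝ) : ℂ) * MvPolynomial.X j

theorem Xi_X (A : E n →ₗ[ℝ] E n) (i : Fin n) :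
    Xi A (MvPolynomial.X i) = ∑ j, MvPolynomial.C (((A (un j)) i : ℝ) : ℂ) * MvPolynomial.X j := by
  unfold Xi
  rw [MvPolynomial.mkDerivation_X]

theorem ev_Xi_X (A : E n →ₗ[ℝ] E n) (i : Fin n) (v : E n) :
    ev (Xi A (MvPolynomial.X i)) v = (((A v) i : ℝ) : ℂ) := by
  rw [Xi_X, ev_sum]
  simp only [ev_mul, ev_C, ev_X]
  conv_rhs => rw [sum_un v, map_sum]
  simp only [map_smul, WithLp.ofLp_sum, WithLp.ofLp_smul, Finset.sum_apply, Pi.smul_apply,
    smul_eq_mul]
  push_cast
  exact Finset.sum_congr rfl fun j _ => mul_comm _ _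

theorem ev_Dx (w v : E n) (p : MvPolynomial (Fin n) ℂ) :
    ev (Dx w p) v = ∑ i, ((w i : ℝ) : ℂ) * ev (pderiv i p) v := by
  rw [Dx_apply, ev_sum]
  simp only [ev_mul, ev_C]

theorem Xi_apply (A : E n →ₗ[ℝ] E n) (p : MvPolynomial (Fin n) ℂ) :
    Xi A p = ∑ i, Xi A (MvPolynomial.X i) * pderiv i p := by
  have h : Xi A = ∑ i, Xi A (MvPolynomial.X i) • pderiv i := by
    apply MvPolynomial.derivation_ext
    intro j
    rw [← Derivation.coeFnAddMonoidHom_apply (∑ i, Xi A (MvPolynomial.X i) • pderiv i), map_sum,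
      Finset.sum_apply, Finset.sum_eq_single j]
    · rw [Derivation.coeFnAddMonoidHom_apply, Derivation.smul_apply, MvPolynomial.pderiv_X_self,
        smul_eq_mul, mul_one]
    · intro i _ hi
      rw [Derivation.coeFnAddMonoidHom_apply, Derivation.smul_apply,
        MvPolynomial.pderiv_X_of_ne hi.symm, smul_zero]
    · simp
  conv_lhs => rw [h]
  rw [← Derivation.coeFnAddMonoidHom_apply, map_sum, Finset.sum_apply]
  exact Finset.sum_congr rfl fun i _ => rfl

theorem ev_Xi (A : E n →ₗ[ℝ] E n) (p : MvPolynomial (Fin n) ℂ) (v : E n) :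
    ev (Xi A p) v = ev (Dx (A v) p) v := by
  rw [Xi_apply, ev_sum, ev_Dx]
  refine Finset.sum_congr rfl fun i _ => ?_
  rw [ev_mul, ev_Xi_X]

theorem Dx_X (w : E n) (i : Fin n) : Dx w (MvPolynomial.X i) = MvPolynomial.C ((w i : ℝ) : ℂ) := by
  rw [Dx_apply, Finset.sum_eq_single i]
  · rw [MvPolynomial.pderiv_X_self, mul_one]
  · intro j _ hj
    rw [MvPolynomial.pderiv_X_of_ne hj.symm, mul_zero]
  · simp

/-- commutation of a constant vector field with a linear one -/
theorem Dx_Xi (w : E n) (A : E n →ₗ[ℝ] E n) (p : MvPolynomial (Fin n) ℂ) :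
    Dx w (Xi A p) = Xi A (Dx w p) + Dx (A w) p := by
  have h : ⁅Dx w, Xi A⁆ = Dx (A w) := by
    apply MvPolynomial.derivation_ext
    intro i
    rw [Derivation.commutator_apply, Dx_X, Dx_X, Xi_X]
    have h1 : Xi A (MvPolynomial.C ((w i : ℝ) : ℂ)) = 0 := Derivation.map_algebraMap _ _
    rw [h1, sub_zero, map_sum]
    have h2 : ∀ j, Dx w (MvPolynomial.C (((A (un j)) i : ℝ) : ℂ) * MvPolynomial.X j) =
        MvPolynomial.C (((A (un j)) i : ℝ) * (w j : ℝ) : ℂ) := by
      intro j
      rw [Derivation.leibniz, Dx_X]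
      have h3 : Dx w (MvPolynomial.C (((A (un j)) i : ℝ) : ℂ)) = 0 := Derivation.map_algebraMap _ _
      rw [h3, smul_zero, add_zero, smul_eq_mul, ← MvPolynomial.C_mul]
    rw [Finset.sum_congr rfl fun j _ => h2 j, ← map_sum]
    congr 1
    conv_rhs => rw [sum_un w, map_sum]
    simp only [map_smul, WithLp.ofLp_sum, WithLp.ofLp_smul, Finset.sum_apply, Pi.smul_apply,
      smul_eq_mul]
    push_cast
    exact Finset.sum_congr rfl fun j _ => mul_comm _ _
  have h2 := congrArg (fun D => D p) h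
  simp only [Derivation.commutator_apply] at h2
  rw [← h2]
  ring

theorem Dx_un (i : Fin n) (p : MvPolynomial (Fin n) ℂ) : Dx (un i) p = pderiv i p := by
  rw [Dx_apply, Finset.sum_eq_single i]
  · simp
  · intro j _ hj
    simp [hj]
  · simp

theorem lap_Dx (p : MvPolynomial (Fin n) ℂ) : lap p = ∑ i, Dx (un i) (Dx (un i) p) := by
  unfold lap
  exact Finset.sum_congr rfl fun i _ => by rw [Dx_un, Dx_un]

/-- the Laplacian commutes with infinitesimal rotations -/
theorem lap_Xi (A : E n →ₗ[ℝ] E n) (hA : ∀ x y, (⟪A x, y⟫ : ℝ) = -⟪x, A y⟫)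
    (p : MvPolynomial (Fin n) ℂ) : lap (Xi A p) = Xi A (lap p) := by
  have h1 : ∀ i : Fin n, Dx (un i) (Dx (un i) (Xi A p)) =
      Xi A (Dx (un i) (Dx (un i) p)) + (Dx (A (un i)) (Dx (un i) p) +
        Dx (un i) (Dx (A (un i)) p)) := by
    intro i
    rw [Dx_Xi, map_add, Dx_Xi, add_assoc]
  rw [lap_Dx, lap_Dx, Finset.sum_congr rfl fun i _ => h1 i, Finset.sum_add_distrib, map_sum]
  have h2 : ∑ i : Fin n, (Dx (A (un i)) (Dx (un i) p) + Dx (un i) (Dx (A (un i)) p)) = 0 := by
    have h3 : ∀ i j : Fin n, (A (un i)) j = -(A (un j)) i := by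
      intro i j
      have h4 := hA (un i) (un j)
      simp only [EuclideanSpace.inner_single_right, EuclideanSpace.inner_single_left] at h4
      simpa using h4
    have h5 : ∀ i : Fin n, Dx (A (un i)) (Dx (un i) p) = ∑ j,
        MvPolynomial.C (((A (un i)) j : ℝ) : ℂ) * pderiv j (pderiv i p) := by
      intro i
      rw [Dx_apply, Dx_un]
    have h6 : ∀ i : Fin n, Dx (un i) (Dx (A (un i)) p) = ∑ j,
        MvPolynomial.C (((A (un i)) j : ℝ) : ℂ) * pderiv j (pderiv i p) := by
      intro i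
      rw [Dx_un, Dx_apply, map_sum]
      refine Finset.sum_congr rfl fun j _ => ?_
      rw [MvPolynomial.pderiv_C_mul, pderiv_comm' i j]
    rw [Finset.sum_congr rfl fun i _ => by rw [h5 i, h6 i], Finset.sum_add_distrib]
    have h7 : ∑ i : Fin n, ∑ j, MvPolynomial.C (((A (un i)) j : ℝ) : ℂ) * pderiv j (pderiv i p) = 0 := by
      have h8 : ∑ i : Fin n, ∑ j, MvPolynomial.C (((A (un i)) j : ℝ) : ℂ) * pderiv j (pderiv i p) =
          -∑ i : Fin n, ∑ j, MvPolynomial.C (((A (un i)) j : ℝ) : ℂ) * pderiv j (pderiv i p) := by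
        conv_rhs => rw [Finset.sum_comm]
        rw [← Finset.sum_neg_distrib]
        refine Finset.sum_congr rfl fun i _ => ?_
        rw [← Finset.sum_neg_distrib]
        refine Finset.sum_congr rfl fun j _ => ?_
        rw [h3 i j, pderiv_comm' j i]
        push_cast
        rw [map_neg]
        ring
      exact self_eq_neg.1 h8
    rw [h7, add_zero]
  rw [h2, add_zero]

/-- change of orthonormal basis in the Laplacian -/
theorem lap_basis {ι : Type} [Fintype ι] (b : OrthonormalBasis ι ℝ (E n))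
    (p : MvPolynomial (Fin n) ℂ) : lap p = ∑ k, Dx (b k) (Dx (b k) p) := by
  have h1 : ∀ k, Dx (b k) (Dx (b k) p) = ∑ i, ∑ j,
      MvPolynomial.C ((((b k) i * (b k) j : ℝ)) : ℂ) * pderiv i (pderiv j p) := by
    intro k
    rw [Dx_apply]
    refine Finset.sum_congr rfl fun i _ => ?_
    rw [Dx_apply, map_sum, Finset.mul_sum]
    refine Finset.sum_congr rfl fun j _ => ?_
    rw [MvPolynomial.pderiv_C_mul, ← mul_assoc, ← MvPolynomial.C_mul]
    push_cast
    rfl
  rw [Finset.sum_congr rfl fun k _ => h1 k, Finset.sum_comm]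
  unfold lap
  refine Finset.sum_congr rfl fun i _ => ?_
  rw [Finset.sum_comm]
  have h2 : ∀ j, ∑ k, MvPolynomial.C ((((b k) i * (b k) j : ℝ)) : ℂ) * pderiv i (pderiv j p) =
      (if j = i then 1 else 0) * pderiv i (pderiv j p) := by
    intro j
    rw [← Finset.sum_mul, ← map_sum]
    congr 1
    have h3 : ∑ k, (b k) i * (b k) j = if j = i then (1 : ℝ) else 0 := by
      have h4 := b.sum_inner_mul_inner (un i) (un j)
      simp only [EuclideanSpace.inner_single_right, EuclideanSpace.inner_single_left] at h4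
      simp only [map_one, one_mul, conj_trivial] at h4
      rw [h4]
      by_cases hij : j = i
      · subst hij; simp
      · simp [hij]
    rw [← Complex.ofReal_sum, h3]
    split_ifs <;> simp
  rw [Finset.sum_congr rfl fun j _ => h2 j]
  simp

end Pool.Agent.H72.Li
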