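import Mathlib
import Pool.Agent.H72.Li.L1
set_option autoImplicit false

/-! The radial part formula and the system of pairs of a compact Lie algebra. -/

open MeasureTheory Set Metric
open scoped ENNReal RealInnerProductSpace

namespace Pool.Agent.H72.Li

open MvPolynomial (pderiv)
open Pool.Agent.H789R2.FR (E sg T sg_finite sg_ae sg_inv)
open Pool.Agent.W5h55.SH
open Pool.Agent.H72.Co

variable {n l d : ℕ}

theorem poly_ext {p q : MvPolynomial (Fin n) ℂ} (h : ∀ w : E n, ev p w = ev q w) : p = q := by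
  by_contra hne
  obtain ⟨w, hw⟩ := exists_nonzero (sub_ne_zero.2 hne)
  apply hw
  have := h w
  unfold ev at this ⊢
  rw [map_sub, this, sub_self]

/-- restriction of polynomials to the image of `U` -/
noncomputable def res (U : E l →ₗᵢ[ℝ] E n) : MvPolynomial (Fin n) ℂ →ₐ[ℂ] MvPolynomial (Fin l) ℂ :=
  MvPolynomial.aeval fun i => ∑ j, MvPolynomial.C (((U (un j)) i : ℝ) : ℂ) * MvPolynomial.X j

theorem res_X (U : E l →ₗᵢ[ℝ] E n) (i : Fin n) : res U (MvPolynomial.X i) =
    ∑ j, MvPolynomial.C (((U (un j)) i : ℝ) : ℂ) * MvPolynomial.X j := by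
  unfold res
  rw [MvPolynomial.aeval_X]

theorem ev_res_X (U : E l →ₗᵢ[ℝ] E n) (i : Fin n) (z : E l) :
    ev (res U (MvPolynomial.X i)) z = (((U z) i : ℝ) : ℂ) := by
  rw [res_X, ev_sum]
  simp only [ev_mul, ev_C, ev_X]
  conv_rhs => rw [sum_un z, map_sum]
  simp only [map_smul, WithLp.ofLp_sum, WithLp.ofLp_smul, Finset.sum_apply, Pi.smul_apply,
    smul_eq_mul]
  push_cast
  exact Finset.sum_congr rfl fun j _ => mul_comm _ _

theorem ev_res (U : E l →ₗᵢ[ℝ] E n) (p : MvPolynomial (Fin n) ℂ) (z : E l) :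
    ev (res U p) z = ev p (U z) := by
  induction p using MvPolynomial.induction_on with
  | C a =>
    have h : res U (MvPolynomial.C a) = MvPolynomial.C a := by
      unfold res
      rw [MvPolynomial.aeval_C]
      rfl
    rw [h, ev_C, ev_C]
  | add p q hp hq => rw [map_add, ev_add, ev_add, hp, hq]
  | mul_X p i hp => rw [map_mul, ev_mul, ev_mul, hp, ev_res_X, ev_X]

theorem res_hom (U : E l →ₗᵢ[ℝ] E n) {k : ℕ} {p : MvPolynomial (Fin n) ℂ}
    (hp : p.IsHomogeneous k) : (res U p).IsHomogeneous k := by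
  have h := hp.aeval (fun i => ∑ j, MvPolynomial.C (((U (un j)) i : ℝ) : ℂ) * MvPolynomial.X j)
    (n := 1) (fun i => MvPolynomial.IsHomogeneous.sum _ _ _ fun j _ =>
      MvPolynomial.isHomogeneous_C_mul_X _ _)
  rw [one_mul] at h
  exact h

theorem Dx_res (U : E l →ₗᵢ[ℝ] E n) (z : E l) (p : MvPolynomial (Fin n) ℂ) :
    Dx z (res U p) = res U (Dx (U z) p) := by
  induction p using MvPolynomial.induction_on with
  | C a =>
    have h : res U (MvPolynomial.C a) = MvPolynomial.C a := by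
      unfold res
      rw [MvPolynomial.aeval_C]
      rfl
    have h2 : Dx (U z) (MvPolynomial.C a) = 0 := Derivation.map_algebraMap _ _
    have h3 : Dx z (MvPolynomial.C a) = 0 := Derivation.map_algebraMap _ _
    rw [h, h2, h3, map_zero]
  | add p q hp hq => rw [map_add, map_add, map_add, map_add, hp, hq]
  | mul_X p i hp =>
    have h1 : Dx z (res U (MvPolynomial.X i)) = MvPolynomial.C (((U z) i : ℝ) : ℂ) := by
      rw [res_X, map_sum]
      have h2 : ∀ j, Dx z (MvPolynomial.C (((U (un j)) i : ℝ) : ℂ) * MvPolynomial.X j) =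
          MvPolynomial.C (((U (un j)) i : ℝ) * (z j : ℝ) : ℂ) := by
        intro j
        rw [Derivation.leibniz, Dx_X]
        have h3 : Dx z (MvPolynomial.C (((U (un j)) i : ℝ) : ℂ)) = 0 := Derivation.map_algebraMap _ _
        rw [h3, smul_zero, add_zero, smul_eq_mul, ← MvPolynomial.C_mul]
      rw [Finset.sum_congr rfl fun j _ => h2 j, ← map_sum]
      congr 1
      conv_rhs => rw [sum_un z, map_sum]
      simp only [map_smul, WithLp.ofLp_sum, WithLp.ofLp_smul, Finset.sum_apply, Pi.smul_apply,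
        smul_eq_mul]
      push_cast
      exact Finset.sum_congr rfl fun j _ => mul_comm _ _
    have h4 : ∀ c : ℂ, res U (MvPolynomial.C c) = MvPolynomial.C c := by
      intro c
      unfold res
      rw [MvPolynomial.aeval_C]
      rfl
    rw [map_mul, Derivation.leibniz, Derivation.leibniz, hp, h1, Dx_X, smul_eq_mul, smul_eq_mul,
      smul_eq_mul, smul_eq_mul, map_add, map_mul, map_mul, h4]

/-- invariant polynomials -/
def Inv (B : E n →ₗ[ℝ] E n →ₗ[ℝ] E n) (p : MvPolynomial (Fin n) ℂ) : Prop := ∀ x, Xi (B x) p = 0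

/-- Root data with respect to the image of `U`. -/
structure Root (B : E n →ₗ[ℝ] E n →ₗ[ℝ] E n) (U : E l →ₗᵢ[ℝ] E n) (X Y : Fin d → E n)
    (α : Fin d → E l) : Prop where
  basis : ∃ b : OrthonormalBasis (Fin l ⊕ (Fin d ⊕ Fin d)) ℝ (E n),
    (∀ i, b (Sum.inl i) = U (un i)) ∧ (∀ j, b (Sum.inr (Sum.inl j)) = X j) ∧
    (∀ j, b (Sum.inr (Sum.inr j)) = Y j)
  hX : ∀ z j, B (U z) (X j) = (⟪α j, z⟫ : ℝ) • Y j
  hY : ∀ z j, B (U z) (Y j) = -((⟪α j, z⟫ : ℝ) • X j)
  hXY : ∀ j, B (X j) (Y j) = U (α j)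
  ne : ∀ j, α j ≠ 0

variable {B : E n →ₗ[ℝ] E n →ₗ[ℝ] E n} {U : E l →ₗᵢ[ℝ] E n} {X Y : Fin d → E n} {α : Fin d → E l}

theorem ev_Dx_smul (c : ℝ) (w v : E n) (p : MvPolynomial (Fin n) ℂ) :
    ev (Dx (c • w) p) v = (c : ℂ) * ev (Dx w p) v := by
  rw [ev_Dx, ev_Dx, Finset.mul_sum]
  refine Finset.sum_congr rfl fun i _ => ?_
  rw [PiLp.smul_apply, smul_eq_mul]
  push_cast
  ring

theorem ev_Dx_neg (w v : E n) (p : MvPolynomial (Fin n) ℂ) :
    ev (Dx (-w) p) v = -ev (Dx w p) v := by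
  have := ev_Dx_smul (-1) w v p
  rw [neg_one_smul] at this
  rw [this]
  push_cast
  ring

/-- differentiated invariance -/
theorem inv_diff {p : MvPolynomial (Fin n) ℂ} (hp : Inv B p) (x w v : E n) :
    ev (Dx (B x v) (Dx w p)) v + ev (Dx (B x w) p) v = 0 := by
  have h := Dx_Xi w (B x) p
  rw [hp x, map_zero] at h
  have h2 := congrArg (fun q => ev q v) h
  simp only [ev_add, ev_Xi] at h2
  rw [← h2]
  simp [ev]

theorem root_key (hB : CLie B) (hR : Root B U X Y α) {p : MvPolynomial (Fin n) ℂ}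
    (hp : Inv B p) (j : Fin d) (z : E l) :
    ((⟪α j, z⟫ : ℝ) : ℂ) * (ev (Dx (X j) (Dx (X j) p)) (U z) + ev (Dx (Y j) (Dx (Y j) p)) (U z)) =
      2 * ev (Dx (U (α j)) p) (U z) := by
  have h1 := inv_diff hp (X j) (Y j) (U z)
  rw [hB.skew (X j) (U z), hR.hX, hR.hXY, ev_Dx_neg, ev_Dx_smul] at h1
  have h2 := inv_diff hp (Y j) (X j) (U z)
  rw [hB.skew (Y j) (U z), hR.hY, hB.skew (Y j) (X j), hR.hXY, neg_neg, ev_Dx_smul,
    ev_Dx_neg] at h2
  linear_combination h2 - h1

/-- the product of the roots -/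
noncomputable def PiR (α : Fin d → E l) : MvPolynomial (Fin l) ℂ := ∏ j, Lx (α j)

theorem Dx_Lx' (w x : E l) : Dx w (Lx x) = MvPolynomial.C ((⟪x, w⟫ : ℝ) : ℂ) := by
  unfold Lx
  rw [map_sum]
  have h2 : ∀ j, Dx w (MvPolynomial.C ((x j : ℝ) : ℂ) * MvPolynomial.X j) =
      MvPolynomial.C ((x j : ℝ) * (w j : ℝ) : ℂ) := by
    intro j
    rw [Derivation.leibniz, Dx_X]
    have h3 : Dx w (MvPolynomial.C ((x j : ℝ) : ℂ)) = 0 := Derivation.map_algebraMap _ _
    rw [h3, smul_zero, add_zero, smul_eq_mul, ← MvPolynomial.C_mul]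
  rw [Finset.sum_congr rfl fun j _ => h2 j, ← map_sum]
  congr 1
  rw [PiLp.inner_apply]
  push_cast
  refine Finset.sum_congr rfl fun j _ => ?_
  simp [mul_comm]

theorem der_prod {ι : Type} [DecidableEq ι] (D : Derivation ℂ (MvPolynomial (Fin l) ℂ)
    (MvPolynomial (Fin l) ℂ)) (s : Finset ι) (f : ι → MvPolynomial (Fin l) ℂ) :
    D (∏ j ∈ s, f j) = ∑ j ∈ s, D (f j) * ∏ k ∈ s.erase j, f k := by
  induction s using Finset.induction_on with
  | empty => simp
  | insert a s ha ih =>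
    rw [Finset.prod_insert ha, Derivation.leibniz, ih, Finset.sum_insert ha,
      Finset.erase_insert ha, smul_eq_mul, smul_eq_mul, Finset.mul_sum, add_comm]
    congr 1
    · ring
    · refine Finset.sum_congr rfl fun j hj => ?_
      have hja : j ≠ a := fun h => ha (h ▸ hj)
      rw [Finset.erase_insert_of_ne hja.symm, Finset.prod_insert]
      · ring
      · intro h
        exact ha (Finset.mem_of_mem_erase h)

theorem lap_mul (f g : MvPolynomial (Fin n) ℂ) :
    lap (f * g) = f * lap g + 2 * (∑ i, pderiv i f * pderiv i g) + g * lap f := by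
  have h1 : ∀ i, pderiv i (pderiv i (f * g)) = f * pderiv i (pderiv i g) +
      2 * (pderiv i f * pderiv i g) + g * pderiv i (pderiv i f) := by
    intro i
    simp only [Derivation.leibniz, smul_eq_mul, map_add]
    ring
  unfold lap
  rw [Finset.sum_congr rfl fun i _ => h1 i, Finset.sum_add_distrib, Finset.sum_add_distrib,
    ← Finset.mul_sum, ← Finset.mul_sum, ← Finset.mul_sum]

/-- **the radial part formula** -/
theorem radial (hB : CLie B) (hR : Root B U X Y α) (hharm : lap (PiR α) = 0)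
    {p : MvPolynomial (Fin n) ℂ} (hp : Inv B p) :
    lap (res U p * PiR α) = res U (lap p) * PiR α := by
  obtain ⟨b, hb1, hb2, hb3⟩ := hR.basis
  have hgrad : ∑ i, pderiv i (res U p) * pderiv i (PiR α) =
      ∑ j, Dx (α j) (res U p) * ∏ k ∈ Finset.univ.erase j, Lx (α k) := by
    have h1 : ∀ i, pderiv i (PiR α) = ∑ j, MvPolynomial.C (((α j) i : ℝ) : ℂ) *
        ∏ k ∈ Finset.univ.erase j, Lx (α k) := by
      intro i
      unfold PiR
      rw [der_prod]
      refine Finset.sum_congr rfl fun j _ => ?_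
      rw [← Dx_un, Dx_Lx']
      have hin : (⟪α j, un i⟫ : ℝ) = (α j) i := by
        rw [EuclideanSpace.inner_single_right]
        simp
      rw [hin]
    simp only [h1, Finset.mul_sum]
    rw [Finset.sum_comm]
    refine Finset.sum_congr rfl fun j _ => ?_
    rw [Dx_apply, Finset.sum_mul]
    refine Finset.sum_congr rfl fun i _ => ?_
    ring
  have hlap : res U (lap p) = lap (res U p) + ∑ j, (res U (Dx (X j) (Dx (X j) p)) +
      res U (Dx (Y j) (Dx (Y j) p))) := by
    rw [lap_basis b p, Fintype.sum_sum_type, Fintype.sum_sum_type]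
    simp only [hb1, hb2, hb3]
    rw [map_add, map_add, map_sum, map_sum, map_sum, lap_Dx, ← Finset.sum_add_distrib]
    congr 1
    refine Finset.sum_congr rfl fun i _ => ?_
    rw [Dx_res, Dx_res]
  rw [lap_mul, hharm, mul_zero, zero_add, hgrad, hlap, add_mul, add_comm, mul_comm (PiR α)]
  congr 1
  rw [Finset.sum_mul, Finset.mul_sum]
  refine Finset.sum_congr rfl fun j _ => ?_
  have hsplit : PiR α = Lx (α j) * ∏ k ∈ Finset.univ.erase j, Lx (α k) := by
    unfold PiR
    exact (Finset.mul_prod_erase Finset.univ (fun k => Lx (α k)) (Finset.mem_univ j)).symm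
  rw [hsplit]
  apply poly_ext
  intro z
  have h := root_key hB hR hp j z
  simp only [ev_mul, ev_add, ev_res, ev_Lx, Dx_res]
  have h2 : ev (2 : MvPolynomial (Fin l) ℂ) z = 2 := by simp [ev]
  rw [h2]
  linear_combination (-(ev (∏ k ∈ Finset.univ.erase j, Lx (α k)) z)) * h

end Pool.Agent.H72.Li
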