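import Mathlib
import Pool.Agent.H72.Li.L2
set_option autoImplicit false

/-! One parameter groups: invariance, isometry, reflections. -/

open MeasureTheory Set Metric
open scoped ENNReal RealInnerProductSpace

namespace Pool.Agent.H72.Li

open MvPolynomial (pderiv)
open Pool.Agent.H789R2.FR (E sg T sg_finite sg_ae sg_inv)
open Pool.Agent.W5h55.SH
open Pool.Agent.H72.Co

variable {n l d : ℕ}

/-- the one parameter group of `A` -/
noncomputable def ex (A : E n →ₗ[ℝ] E n) (t : ℝ) : E n →L[ℝ] E n :=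
  NormedSpace.exp (t • LinearMap.toContinuousLinearMap A)

theorem ex_deriv (A : E n →ₗ[ℝ] E n) (v : E n) (t : ℝ) :
    HasDerivAt (fun t => ex A t v) (A (ex A t v)) t := by
  have h := hasDerivAt_exp_smul_const' (𝕂 := ℝ) (LinearMap.toContinuousLinearMap A) t
  have h2 := h.clm_apply (hasDerivAt_const t v)
  simpa [ex] using h2

theorem ex_deriv' (A : E n →ₗ[ℝ] E n) {w : ℝ → E n} {w' : E n} {t : ℝ} (hw : HasDerivAt w w' t) :
    HasDerivAt (fun t => ex A (-t) (w t)) (ex A (-t) (w' - A (w t))) t := by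
  have h := (hasDerivAt_exp_smul_const (𝕂 := ℝ) (LinearMap.toContinuousLinearMap A) (-t))
  have h1 : HasDerivAt (fun t : ℝ => -t) (-1) t := (hasDerivAt_id t).neg
  have h2 := h.scomp t h1
  have h3 := h2.clm_apply hw
  refine h3.congr_deriv ?_
  set Q := NormedSpace.exp ((-t) • LinearMap.toContinuousLinearMap A) with hQ
  rw [neg_one_smul]
  change -(Q (A (w t))) + Q w' = Q (w' - A (w t))
  rw [map_sub]
  abel

theorem ex_zero (A : E n →ₗ[ℝ] E n) (v : E n) : ex A 0 v = v := by
  have h : (0 : ℝ) • (LinearMap.toContinuousLinearMap A) = (0 : E n →L[ℝ] E n) := by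
    ext w i
    simp
  unfold ex
  rw [h, NormedSpace.exp_zero]
  rfl

theorem ex_neg (A : E n →ₗ[ℝ] E n) (t : ℝ) (v : E n) : ex A (-t) (ex A t v) = v := by
  have h1 : ∀ t, HasDerivAt (fun t => ex A (-t) (ex A t v)) 0 t := by
    intro t
    have := ex_deriv' A (ex_deriv A v t)
    rwa [sub_self, map_zero] at this
  have h2 := is_const_of_deriv_eq_zero (f := fun t => ex A (-t) (ex A t v))
    (fun t => (h1 t).differentiableAt) (fun t => (h1 t).deriv) t 0
  rw [h2]
  simp only [neg_zero, ex_zero]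

/-- uniqueness for linear differential equations -/
theorem ex_unique (A : E n →ₗ[ℝ] E n) (w : ℝ → E n) (hw : ∀ t, HasDerivAt w (A (w t)) t) (t : ℝ) :
    w t = ex A t (w 0) := by
  have h1 : ∀ t, HasDerivAt (fun t => ex A (-t) (w t)) 0 t := by
    intro t
    have := ex_deriv' A (hw t)
    rwa [sub_self, map_zero] at this
  have h2 := is_const_of_deriv_eq_zero (f := fun t => ex A (-t) (w t))
    (fun t => (h1 t).differentiableAt) (fun t => (h1 t).deriv) t 0
  simp only [neg_zero, ex_zero] at h2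
  have h3 := ex_neg A (-t) (w t)
  rw [neg_neg, h2] at h3
  exact h3.symm

/-- derivative of a polynomial along a curve -/
theorem ev_curve (p : MvPolynomial (Fin n) ℂ) {c : ℝ → E n} {c' : E n} {t : ℝ}
    (hc : HasDerivAt c c' t) : HasDerivAt (fun t => ev p (c t)) (ev (Dx c' p) (c t)) t := by
  induction p using MvPolynomial.induction_on with
  | C a =>
    have h2 : Dx c' (MvPolynomial.C a) = 0 := Derivation.map_algebraMap _ _
    rw [h2]
    have h3 : (fun t => ev (MvPolynomial.C a : MvPolynomial (Fin n) ℂ) (c t)) = fun _ => a := by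
      funext t
      simp
    rw [h3]
    have h4 : ev (0 : MvPolynomial (Fin n) ℂ) (c t) = 0 := by simp [ev]
    rw [h4]
    exact hasDerivAt_const _ _
  | add p q hp hq =>
    have h3 : (fun t => ev (p + q) (c t)) = fun t => ev p (c t) + ev q (c t) := by
      funext t
      simp
    rw [h3, map_add, ev_add]
    exact hp.add hq
  | mul_X p i hp =>
    have h3 : (fun t => ev (p * MvPolynomial.X i) (c t)) =
        fun t => ev p (c t) * (((c t) i : ℝ) : ℂ) := by
      funext t
      simp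
    have h4 : HasDerivAt (fun t => (c t) i) (c' i) t := by
      exact (EuclideanSpace.proj (𝕜 := ℝ) i).hasFDerivAt.comp_hasDerivAt t hc
    rw [h3, Derivation.leibniz, Dx_X, ev_add, smul_eq_mul, smul_eq_mul, ev_mul, ev_mul, ev_C, ev_X]
    refine (hp.mul h4.ofReal_comp).congr_deriv ?_
    ring

variable {B : E n →ₗ[ℝ] E n →ₗ[ℝ] E n} {U : E l →ₗᵢ[ℝ] E n} {X Y : Fin d → E n} {α : Fin d → E l}

theorem inv_ex {p : MvPolynomial (Fin n) ℂ} (hp : Inv B p) (x v : E n) (t : ℝ) :
    ev p (ex (B x) t v) = ev p v := by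
  have h1 : ∀ t, HasDerivAt (fun t => ev p (ex (B x) t v)) 0 t := by
    intro t
    have h2 := ev_curve p (ex_deriv (B x) v t)
    have h3 : ev (Dx (B x (ex (B x) t v)) p) (ex (B x) t v) = 0 := by
      rw [← ev_Xi, hp x]
      simp [ev]
    rwa [h3] at h2
  have h2 := is_const_of_deriv_eq_zero (f := fun t => ev p (ex (B x) t v))
    (fun t => (h1 t).differentiableAt) (fun t => (h1 t).deriv) t 0
  simp only [ex_zero] at h2
  exact h2

/-- conversely, global invariance gives infinitesimal invariance -/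
theorem inv_of_ex {p : MvPolynomial (Fin n) ℂ} (h : ∀ x v t, ev p (ex (B x) t v) = ev p v) :
    Inv B p := by
  intro x
  apply poly_ext
  intro v
  rw [ev_Xi]
  have h2 := ev_curve p (ex_deriv (B x) v 0)
  rw [ex_zero] at h2
  have h3 : (fun t => ev p (ex (B x) t v)) = fun _ => ev p v := by
    funext t
    exact h x v t
  rw [h3] at h2
  have h4 := h2.unique (hasDerivAt_const 0 (ev p v))
  rw [h4]
  simp [ev]

theorem ex_norm (hB : CLie B) (x v : E n) (t : ℝ) : ‖ex (B x) t v‖ = ‖v‖ := by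
  have h1 : ∀ t, HasDerivAt (fun t => ‖ex (B x) t v‖ ^ 2) 0 t := by
    intro t
    have h2 := (ex_deriv (B x) v t).norm_sq
    have h3 : (⟪ex (B x) t v, B x (ex (B x) t v)⟫ : ℝ) = 0 := by
      have := hB.inv x (ex (B x) t v) (ex (B x) t v)
      rw [real_inner_comm] at this
      linarith
    rw [h3, mul_zero] at h2
    exact h2
  have h2 := is_const_of_deriv_eq_zero (f := fun t => ‖ex (B x) t v‖ ^ 2)
    (fun t => (h1 t).differentiableAt) (fun t => (h1 t).deriv) t 0
  simp only [ex_zero] at h2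
  exact (sq_eq_sq₀ (norm_nonneg _) (norm_nonneg _)).1 h2

/-- the isometry `exp (ad x)` -/
theorem ex_iso (hB : CLie B) (x : E n) (t : ℝ) : ∃ L : E n ≃ₗᵢ[ℝ] E n, ∀ v, L v = ex (B x) t v := by
  let Li : E n →ₗᵢ[ℝ] E n := ⟨(ex (B x) t : E n →ₗ[ℝ] E n), fun v => ex_norm hB x v t⟩
  exact ⟨Li.toLinearIsometryEquiv rfl, fun v => rfl⟩

theorem bil_deriv (B : E n →ₗ[ℝ] E n →ₗ[ℝ] E n) {y z : ℝ → E n} {y' z' : E n} {t : ℝ}
    (hy : HasDerivAt y y' t) (hz : HasDerivAt z z' t) :
    HasDerivAt (fun t => B (y t) (z t)) (B y' (z t) + B (y t) z') t := by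
  let Bc : E n →L[ℝ] E n →L[ℝ] E n := LinearMap.toContinuousLinearMap
    ((LinearMap.toContinuousLinearMap : (E n →ₗ[ℝ] E n) ≃ₗ[ℝ] (E n →L[ℝ] E n)).toLinearMap ∘ₗ B)
  have h1 : HasDerivAt (fun t => Bc (y t)) (Bc y') t := Bc.hasFDerivAt.comp_hasDerivAt t hy
  exact h1.clm_apply hz

/-- `exp (ad x)` is an automorphism -/
theorem ex_aut (hB : CLie B) (x y z : E n) (t : ℝ) :
    ex (B x) t (B y z) = B (ex (B x) t y) (ex (B x) t z) := by
  have h := ex_unique (B x) (fun t => B (ex (B x) t y) (ex (B x) t z)) (fun t => ?_) t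
  · simp only [ex_zero] at h
    exact h.symm
  · refine (bil_deriv B (ex_deriv (B x) y t) (ex_deriv (B x) z t)).congr_deriv ?_
    exact (hB.jac x _ _).symm

/-- **the reflections** -/
theorem ex_refl (hB : CLie B) (hR : Root B U X Y α) (j : Fin d) (z : E l) :
    ex (B (X j)) (Real.pi / ‖α j‖) (U z) = U (rf (‖α j‖⁻¹ • α j) z) := by
  obtain ⟨c0, hc0⟩ : ∃ c0, c0 = ‖α j‖ := ⟨_, rfl⟩
  have hc : 0 < c0 := by
    rw [hc0]
    exact norm_pos_iff.2 (hR.ne j)
  obtain ⟨a, ha⟩ : ∃ a, a = c0⁻¹ • α j := ⟨_, rfl⟩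
  obtain ⟨s, hs⟩ : ∃ s : ℝ, s = ⟪a, z⟫ := ⟨_, rfl⟩
  rw [← hc0, ← ha]
  have hαa : α j = c0 • a := by
    rw [ha, smul_smul, mul_inv_cancel₀ hc.ne', one_smul]
  have hna : ‖a‖ = 1 := by
    rw [ha, norm_smul, norm_inv, Real.norm_of_nonneg hc.le, ← hc0, inv_mul_cancel₀ hc.ne']
  have hαz : (⟪α j, z⟫ : ℝ) = c0 * s := by
    rw [hαa, real_inner_smul_left, hs]
  have hαα : (⟪α j, a⟫ : ℝ) = c0 := by
    rw [hαa, real_inner_smul_left, real_inner_self_eq_norm_sq, hna]
    ring
  have b1 : B (X j) (U a) = -(c0 • Y j) := by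
    rw [hB.skew, hR.hX, hαα]
  have b2 : B (X j) (Y j) = c0 • U a := by
    rw [hR.hXY, hαa, map_smul]
  have b3 : B (X j) (U z) = -((c0 * s) • Y j) := by
    rw [hB.skew, hR.hX, hαz]
  have h := ex_unique (B (X j)) (fun t => U z + (s * (Real.cos (c0 * t) - 1)) • U a -
    (s * Real.sin (c0 * t)) • Y j) (fun t => ?_) (Real.pi / c0)
  · simp only [mul_zero, Real.cos_zero, sub_self, zero_smul, add_zero, Real.sin_zero, sub_zero] at h
    rw [← h, mul_div_cancel₀ _ hc.ne', Real.cos_pi, Real.sin_pi, mul_zero, zero_smul, sub_zero]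
    unfold rf
    rw [map_sub, map_smul, sub_eq_add_neg (U z), ← neg_smul, ← hs]
    congr 2
    ring
  · have g0 : HasDerivAt (fun t : ℝ => c0 * t) c0 t := by
      simpa using (hasDerivAt_id t).const_mul c0
    have g1 : HasDerivAt (fun t => s * (Real.cos (c0 * t) - 1)) (s * (-Real.sin (c0 * t) * c0)) t :=
      ((g0.cos).sub_const 1).const_mul s
    have g2 : HasDerivAt (fun t => s * Real.sin (c0 * t)) (s * (Real.cos (c0 * t) * c0)) t :=
      (g0.sin).const_mul s
    have g3 := (((g1.smul_const (U a)).const_add (U z)).sub (g2.smul_const (Y j)))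
    refine g3.congr_deriv ?_
    rw [map_sub, map_add, map_smul, map_smul, b1, b2, b3]
    module

end Pool.Agent.H72.Li
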