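import Mathlib
import Pool.Agent.H72.Li.L3
set_option autoImplicit false

/-! The system of pairs of a compact Lie algebra. -/

open MeasureTheory Set Metric
open scoped ENNReal RealInnerProductSpace

namespace Pool.Agent.H72.Li

open MvPolynomial (pderiv)
open Pool.Agent.H789R2.FR (E sg T sg_finite sg_ae sg_inv)
open Pool.Agent.W5h55.SH
open Pool.Agent.H72.Co

variable {n l d : ℕ}
variable {B : E n →ₗ[ℝ] E n →ₗ[ℝ] E n} {U : E l →ₗᵢ[ℝ] E n} {X Y : Fin d → E n} {α : Fin d → E l}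

/-- the invariant polynomials of degree `k` together with their restrictions -/
noncomputable def WL (B : E n →ₗ[ℝ] E n →ₗ[ℝ] E n) (U : E l →ₗᵢ[ℝ] E n) (k : ℕ) :
    Submodule ℂ (MvPolynomial (Fin n) ℂ × MvPolynomial (Fin l) ℂ) where
  carrier := {a | a.1.IsHomogeneous k ∧ Inv B a.1 ∧ a.2 = res U a.1}
  add_mem' := by
    rintro a b ⟨ha1, ha2, ha3⟩ ⟨hb1, hb2, hb3⟩
    refine ⟨ha1.add hb1, fun x => ?_, ?_⟩
    · rw [Prod.fst_add, map_add, ha2, hb2, add_zero]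
    · rw [Prod.fst_add, Prod.snd_add, map_add, ha3, hb3]
  zero_mem' := by
    refine ⟨MvPolynomial.isHomogeneous_zero _ _ _, fun x => ?_, ?_⟩
    · rw [Prod.fst_zero, map_zero]
    · rw [Prod.fst_zero, Prod.snd_zero, map_zero]
  smul_mem' := by
    rintro c a ⟨ha1, ha2, ha3⟩
    refine ⟨?_, fun x => ?_, ?_⟩
    · rw [Prod.smul_fst, MvPolynomial.smul_eq_C_mul]
      exact ha1.C_mul c
    · rw [Prod.smul_fst, Derivation.map_smul, ha2, smul_zero]
    · rw [Prod.smul_fst, Prod.smul_snd, map_smul, ha3]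

theorem mem_WL {k : ℕ} {a : MvPolynomial (Fin n) ℂ × MvPolynomial (Fin l) ℂ} :
    a ∈ WL B U k ↔ a.1.IsHomogeneous k ∧ Inv B a.1 ∧ a.2 = res U a.1 := Iff.rfl

theorem ev_Dx_cj (w v : E n) (p : MvPolynomial (Fin n) ℂ) :
    ev (Dx w (cj p)) v = starRingEnd ℂ (ev (Dx w p) v) := by
  rw [ev_Dx, ev_Dx, map_sum]
  refine Finset.sum_congr rfl fun i _ => ?_
  have h : pderiv i (cj p) = cj (pderiv i p) := by
    unfold cj
    rw [MvPolynomial.pderiv_map]
  rw [h, ev_cj, map_mul, Complex.conj_ofReal]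

theorem inv_mul {p q : MvPolynomial (Fin n) ℂ} (hp : Inv B p) (hq : Inv B q) : Inv B (p * q) := by
  intro x
  rw [Derivation.leibniz, hp, hq]
  simp

theorem inv_cj {p : MvPolynomial (Fin n) ℂ} (hp : Inv B p) : Inv B (cj p) := by
  intro x
  apply poly_ext
  intro v
  rw [ev_Xi, ev_Dx_cj, ← ev_Xi, hp x]
  simp [ev]

theorem inv_rho (hB : CLie B) : Inv B (rho n) := by
  intro x
  apply poly_ext
  intro v
  rw [ev_Xi, ev_Dx]
  have h1 : ∀ i : Fin n, ev (pderiv i (rho n)) v = 2 * ((v i : ℝ) : ℂ) := by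
    intro i
    rw [pd_rho, ev_mul, ev_X]
    congr 1
    simp [ev]
  simp only [h1]
  have h2 : (⟪B x v, v⟫ : ℝ) = 0 := by
    have := hB.inv x v v
    have h3 := real_inner_comm v (B x v)
    linarith
  rw [PiLp.inner_apply] at h2
  have h3 : ∑ i, (((B x v) i : ℝ) : ℂ) * (2 * ((v i : ℝ) : ℂ)) =
      ((2 * ∑ i, ⟪(B x v) i, v i⟫ : ℝ) : ℂ) := by
    push_cast
    rw [Finset.mul_sum]
    refine Finset.sum_congr rfl fun i _ => ?_
    simp
    ring
  rw [h3, h2]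
  simp [ev]

theorem inv_lap (hB : CLie B) {p : MvPolynomial (Fin n) ℂ} (hp : Inv B p) : Inv B (lap p) := by
  intro x
  rw [← lap_Xi (B x) (fun y z => hB.inv x y z), hp x, lap_zero]

theorem res_C (U : E l →ₗᵢ[ℝ] E n) (c : ℂ) : res U (MvPolynomial.C c) = MvPolynomial.C c := by
  unfold res
  rw [MvPolynomial.aeval_C]
  rfl

theorem res_cj (U : E l →ₗᵢ[ℝ] E n) (p : MvPolynomial (Fin n) ℂ) : res U (cj p) = cj (res U p) := by
  apply poly_ext
  intro z
  rw [ev_res, ev_cj, ev_cj, ev_res]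

theorem res_rho (U : E l →ₗᵢ[ℝ] E n) : res U (rho n) = rho l := by
  apply poly_ext
  intro z
  rw [ev_res, ev_rho, ev_rho, U.norm_map]

theorem Lx_ne {x : E l} (hx : x ≠ 0) : Lx x ≠ 0 := by
  intro h
  have h1 := ev_Lx x x
  rw [h, real_inner_self_eq_norm_sq] at h1
  have h2 : ev (0 : MvPolynomial (Fin l) ℂ) x = 0 := by simp [ev]
  rw [h2] at h1
  have h3 : ‖x‖ ^ 2 = 0 := by exact_mod_cast h1.symm
  apply hx
  simpa using h3

theorem cj_Lx (x : E l) : cj (Lx x) = Lx x := by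
  apply poly_ext
  intro z
  rw [ev_cj, ev_Lx, Complex.conj_ofReal]

theorem PiR_hom (α : Fin d → E l) : (PiR α).IsHomogeneous d := by
  unfold PiR
  have h := MvPolynomial.IsHomogeneous.prod Finset.univ (fun j => Lx (α j)) (fun _ => 1)
    (fun j _ => Lx_hom (α j))
  simpa using h

theorem PiR_ne (hα : ∀ j, α j ≠ 0) : PiR α ≠ 0 := by
  unfold PiR
  exact Finset.prod_ne_zero_iff.2 fun j _ => Lx_ne (hα j)

theorem PiR_real (α : Fin d → E l) : cj (PiR α) = PiR α := by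
  unfold PiR cj
  rw [map_prod]
  exact Finset.prod_congr rfl fun j _ => cj_Lx (α j)

theorem ev_PiR (α : Fin d → E l) (z : E l) : ev (PiR α) z = ((∏ j, ⟪α j, z⟫ : ℝ) : ℂ) := by
  unfold PiR ev
  rw [map_prod]
  push_cast
  exact Finset.prod_congr rfl fun j _ => ev_Lx (α j) z

/-- **the system of a compact Lie algebra** -/
theorem sysL (hB : CLie B) (hR : Root B U X Y α) (hl : 2 ≤ l) (hharm : lap (PiR α) = 0) :
    Sys d (PiR α) (WL B U) where
  two := hl
  dim := by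
    obtain ⟨b, _⟩ := hR.basis
    have h := Module.finrank_eq_card_basis b.toBasis
    rw [finrank_euclideanSpace_fin] at h
    simp only [Fintype.card_sum, Fintype.card_fin] at h
    omega
  hPi := PiR_hom α
  Pi_ne := PiR_ne hR.ne
  Pi_real := PiR_real α
  Pi_harm := hharm
  hom := by
    rintro k a ⟨h1, _, h3⟩
    exact ⟨h1, by rw [h3]; exact res_hom U h1⟩
  one := by
    refine ⟨MvPolynomial.isHomogeneous_one _ _, fun x => ?_, ?_⟩
    · exact Derivation.map_one_eq_zero _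
    · simp only [map_one]
  zero := by
    rintro a ⟨h1, _, h3⟩
    have h4 : a.1 = MvPolynomial.C (MvPolynomial.coeff 0 a.1) :=
      MvPolynomial.totalDegree_eq_zero_iff_eq_C.1 (Nat.le_zero.1 h1.totalDegree_le)
    refine ⟨MvPolynomial.coeff 0 a.1, ?_⟩
    refine Prod.ext h4 ?_
    rw [h3, h4, res_C]
    simp
  mul := by
    rintro j k a b ⟨ha1, ha2, ha3⟩ ⟨hb1, hb2, hb3⟩
    refine ⟨ha1.mul hb1, inv_mul ha2 hb2, ?_⟩
    rw [Prod.fst_mul, Prod.snd_mul, map_mul, ha3, hb3]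
  rho := ⟨rho_hom n, inv_rho hB, (res_rho U).symm⟩
  star := by
    rintro k a ⟨h1, h2, h3⟩
    refine ⟨h1.map _, inv_cj h2, ?_⟩
    simp only
    rw [h3, res_cj]
  lap := by
    rintro k a ⟨h1, h2, h3⟩
    refine ⟨res U (Co.lap a.1), ⟨lap_hom h1, inv_lap hB h2, rfl⟩, ?_⟩
    rw [h3]
    exact radial hB hR hharm h2
  low := by
    rintro k hk a ⟨h1, h2, h3⟩
    rw [h3, radial hB hR hharm h2, lap_low hk h1]
    simp

theorem inv_refl (hB : CLie B) (hR : Root B U X Y α) (k : ℕ)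
    (b : MvPolynomial (Fin n) ℂ × MvPolynomial (Fin l) ℂ) (hb : b ∈ WL B U k) (j : Fin d)
    (z : E l) : ev b.2 (rf (‖α j‖⁻¹ • α j) z) = ev b.2 z := by
  obtain ⟨h1, h2, h3⟩ := hb
  rw [h3, ev_res, ev_res, ← ex_refl hB hR, inv_ex h2]

end Pool.Agent.H72.Li
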