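import Mathlib
import Pool.Agent.H72.Li.L4
set_option autoImplicit false

/-! Existence of root data. -/

open MeasureTheory Set Metric
open scoped ENNReal RealInnerProductSpace

namespace Pool.Agent.H72.Li

open Pool.Agent.H789R2.FR (E sg T sg_finite sg_ae sg_inv)
open Pool.Agent.W5h55.SH
open Pool.Agent.H72.Co

variable {n l d : ℕ} {B : E n →ₗ[ℝ] E n →ₗ[ℝ] E n}

/-- a maximal abelian subspace -/
structure MaxAb (B : E n →ₗ[ℝ] E n →ₗ[ℝ] E n) (t : Submodule ℝ (E n)) : Prop where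
  ab : ∀ x ∈ t, ∀ y ∈ t, B x y = 0
  max : ∀ x, (∀ y ∈ t, B x y = 0) → x ∈ t

/-- an orthonormal family of root planes filling the subspace `M` -/
structure Fam (B : E n →ₗ[ℝ] E n →ₗ[ℝ] E n) (t M : Submodule ℝ (E n)) {ι : Type} (X Y : ι → E n) :
    Prop where
  memX : ∀ i, X i ∈ M
  memY : ∀ i, Y i ∈ M
  nX : ∀ i, ‖X i‖ = 1
  nY : ∀ i, ‖Y i‖ = 1
  oXX : ∀ i j, i ≠ j → (⟪X i, X j⟫ : ℝ) = 0
  oYY : ∀ i j, i ≠ j → (⟪Y i, Y j⟫ : ℝ) = 0
  oXY : ∀ i j, (⟪X i, Y j⟫ : ℝ) = 0
  comp : ∀ v ∈ M, (∀ i, (⟪X i, v⟫ : ℝ) = 0) → (∀ i, (⟪Y i, v⟫ : ℝ) = 0) → v = 0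
  rX : ∀ i, ∀ H ∈ t, B H (X i) = (⟪B (X i) (Y i), H⟫ : ℝ) • Y i
  rY : ∀ i, ∀ H ∈ t, B H (Y i) = -((⟪B (X i) (Y i), H⟫ : ℝ) • X i)

theorem comm_t (hB : CLie B) {t : Submodule ℝ (E n)} (ht : MaxAb B t) {H K : E n} (hH : H ∈ t)
    (hK : K ∈ t) (v : E n) : B H (B K v) = B K (B H v) := by
  have h := hB.jac H K v
  rw [ht.ab H hH K hK, map_zero, LinearMap.zero_apply, zero_add] at h
  exact h

/-- a common eigenvector of the squares -/
theorem exists_joint (hB : CLie B) {t : Submodule ℝ (E n)} (ht : MaxAb B t) (M : Submodule ℝ (E n))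
    (hM : ∀ H ∈ t, ∀ v ∈ M, B H v ∈ M) (hne : M ≠ ⊥) :
    ∃ x ∈ M, x ≠ 0 ∧ ∃ χ : t × t → ℝ, ∀ p : t × t, B p.1 (B p.2 x) = χ p • x := by
  let Tm : t × t → (M →ₗ[ℝ] M) := fun p =>
    ((B (p.1 : E n)).restrict (hM p.1 p.1.2)) ∘ₗ ((B (p.2 : E n)).restrict (hM p.2 p.2.2))
  have hTm : ∀ p (v : M), ((Tm p v : M) : E n) = B p.1 (B p.2 v) := fun p v => rfl
  have hsym : ∀ p, (Tm p).IsSymmetric := by
    intro p v w
    rw [Submodule.coe_inner, Submodule.coe_inner, hTm, hTm, hB.inv,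
      comm_t hB ht p.1.2 p.2.2 (w : E n), hB.inv, neg_neg]
  have hcomm : Pairwise (Function.onFun Commute Tm) := by
    intro p q _
    change Tm p * Tm q = Tm q * Tm p
    ext v
    change ((Tm p (Tm q v) : M) : E n) _ = ((Tm q (Tm p v) : M) : E n) _
    rw [hTm, hTm, hTm, hTm, comm_t hB ht p.2.2 q.1.2, comm_t hB ht p.1.2 q.1.2,
      comm_t hB ht p.2.2 q.2.2, comm_t hB ht p.1.2 q.2.2]
  have htop := LinearMap.IsSymmetric.iSup_iInf_eq_top_of_commute hsym hcomm
  have hnt : Nontrivial M := Submodule.nontrivial_iff_ne_bot.2 hne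
  have hex : ∃ χ : t × t → ℝ, (⨅ i, Module.End.eigenspace (Tm i) (χ i)) ≠ ⊥ := by
    by_contra hcon
    push Not at hcon
    rw [iSup_congr hcon, iSup_const] at htop
    exact bot_ne_top htop
  obtain ⟨χ, hχ⟩ := hex
  obtain ⟨x, hx, hx0⟩ := Submodule.exists_mem_ne_zero_of_ne_bot hχ
  refine ⟨x, x.2, fun h => hx0 (Subtype.ext h), χ, fun p => ?_⟩
  have h1 := (Submodule.mem_iInf _).1 hx p
  rw [Module.End.mem_eigenspace_iff] at h1
  have h2 := congrArg (fun v : M => (v : E n)) h1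
  exact h2

/-- one root plane -/
theorem exists_plane (hB : CLie B) {t : Submodule ℝ (E n)} (ht : MaxAb B t) (M : Submodule ℝ (E n))
    (hM : ∀ H ∈ t, ∀ v ∈ M, B H v ∈ M) (hort : ∀ v ∈ M, ∀ H ∈ t, (⟪v, H⟫ : ℝ) = 0) (hne : M ≠ ⊥) :
    ∃ x ∈ M, ∃ y ∈ M, ‖x‖ = 1 ∧ ‖y‖ = 1 ∧ (⟪x, y⟫ : ℝ) = 0 ∧
      ∀ H ∈ t, B H x = (⟪B x y, H⟫ : ℝ) • y ∧ B H y = -((⟪B x y, H⟫ : ℝ) • x) := by
  obtain ⟨x0, hx0M, hx0, χ, hχ⟩ := exists_joint hB ht M hM hne
  obtain ⟨x, hx⟩ : ∃ x : E n, x = ‖x0‖⁻¹ • x0 := ⟨_, rfl⟩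
  have hn0 : ‖x0‖ ≠ 0 := norm_ne_zero_iff.2 hx0
  have hxM : x ∈ M := by
    rw [hx]
    exact M.smul_mem _ hx0M
  have hx1 : ‖x‖ = 1 := by
    rw [hx, norm_smul, norm_inv, norm_norm, inv_mul_cancel₀ hn0]
  have hχ' : ∀ p : t × t, B p.1 (B p.2 x) = χ p • x := by
    intro p
    rw [hx, map_smul, map_smul, hχ, smul_comm]
  have hxn : x ≠ 0 := by
    intro h
    rw [h, norm_zero] at hx1
    exact zero_ne_one hx1
  -- an element of `t` which moves `x`
  obtain ⟨H1, hH1, hmove⟩ : ∃ H1 ∈ t, B H1 x ≠ 0 := by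
    by_contra hcon
    push Not at hcon
    have hxt : x ∈ t := ht.max x fun y hy => by rw [hB.skew, hcon y hy, neg_zero]
    have h1 := hort x hxM x hxt
    rw [real_inner_self_eq_norm_sq, hx1] at h1
    norm_num at h1
  obtain ⟨ν, hν⟩ : ∃ ν : ℝ, ν = ‖B H1 x‖ := ⟨_, rfl⟩
  have hν0 : 0 < ν := by
    rw [hν]
    exact norm_pos_iff.2 hmove
  obtain ⟨y, hy⟩ : ∃ y : E n, y = ν⁻¹ • B H1 x := ⟨_, rfl⟩
  have hyM : y ∈ M := by
    rw [hy]
    exact M.smul_mem _ (hM H1 hH1 x hxM)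
  have hy1 : ‖y‖ = 1 := by
    rw [hy, norm_smul, norm_inv, Real.norm_of_nonneg hν0.le, ← hν, inv_mul_cancel₀ hν0.ne']
  have hxy : (⟪x, y⟫ : ℝ) = 0 := by
    rw [hy, real_inner_smul_right]
    have h1 := hB.inv H1 x x
    have h2 := real_inner_comm x (B H1 x)
    have h3 : (⟪x, B H1 x⟫ : ℝ) = 0 := by linarith
    rw [h3, mul_zero]
  obtain ⟨lam, hlam⟩ : ∃ lam : ℝ, lam = χ (⟨H1, hH1⟩, ⟨H1, hH1⟩) := ⟨_, rfl⟩
  have hlam0 : lam ≠ 0 := by
    have h1 := hχ' (⟨H1, hH1⟩, ⟨H1, hH1⟩)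
    simp only at h1
    have h2 := hB.inv H1 (B H1 x) x
    rw [h1, real_inner_smul_left, real_inner_self_eq_norm_sq, hx1, real_inner_self_eq_norm_sq] at h2
    intro h3
    rw [← hlam, h3] at h2
    have : 0 < ‖B H1 x‖ ^ 2 := by positivity
    linarith
  refine ⟨x, hxM, y, hyM, hx1, hy1, hxy, fun K hK => ?_⟩
  -- `B K x` is a multiple of `y`
  have hKx : ∃ c : ℝ, B K x = c • y := by
    have e1 := hχ' (⟨H1, hH1⟩, ⟨K, hK⟩)
    have e2 := hχ' (⟨H1, hH1⟩, ⟨H1, hH1⟩)
    simp only at e1 e2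
    have e3 : lam • B K x = χ (⟨H1, hH1⟩, ⟨K, hK⟩) • B H1 x := by
      calc lam • B K x = B K (lam • x) := by rw [map_smul]
        _ = B K (B H1 (B H1 x)) := by rw [hlam, ← e2]
        _ = B H1 (B H1 (B K x)) := by
            rw [comm_t hB ht hK hH1, comm_t hB ht hK hH1 x]
        _ = B H1 (χ (⟨H1, hH1⟩, ⟨K, hK⟩) • x) := by rw [e1]
        _ = _ := by rw [map_smul]
    refine ⟨lam⁻¹ * χ (⟨H1, hH1⟩, ⟨K, hK⟩) * ν, ?_⟩
    have e4 : B K x = lam⁻¹ • (lam • B K x) := by
      rw [smul_smul, inv_mul_cancel₀ hlam0, one_smul]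
    rw [e4, e3, hy, smul_smul, smul_smul]
    congr 1
    field_simp
  have hKy : ∃ c : ℝ, B K y = c • x := by
    have e1 := hχ' (⟨K, hK⟩, ⟨H1, hH1⟩)
    simp only at e1
    refine ⟨ν⁻¹ * χ (⟨K, hK⟩, ⟨H1, hH1⟩), ?_⟩
    rw [hy, map_smul, e1, smul_smul]
  obtain ⟨c, hc⟩ := hKx
  obtain ⟨c', hc'⟩ := hKy
  have k1 : (⟪B x y, K⟫ : ℝ) = c := by
    have h1 := hB.inv x y K
    rw [hB.skew x K, inner_neg_right, neg_neg, hc, real_inner_smul_right,
      real_inner_self_eq_norm_sq, hy1] at h1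
    rw [h1]
    ring
  have k2 : c' = -c := by
    have h1 := hB.inv K y x
    rw [hc', hc, real_inner_smul_left, real_inner_smul_right, real_inner_self_eq_norm_sq,
      real_inner_self_eq_norm_sq, hx1, hy1] at h1
    linarith
  rw [k1]
  refine ⟨hc, ?_⟩
  rw [hc', k2, neg_smul]

/-- the root planes fill every invariant subspace -/
theorem exists_fam (hB : CLie B) {t : Submodule ℝ (E n)} (ht : MaxAb B t) : ∀ (N : ℕ)
    (M : Submodule ℝ (E n)), Module.finrank ℝ M = N → (∀ H ∈ t, ∀ v ∈ M, B H v ∈ M) →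
    (∀ v ∈ M, ∀ H ∈ t, (⟪v, H⟫ : ℝ) = 0) →
    ∃ (ι : Type) (_ : Fintype ι) (X Y : ι → E n), Fam B t M X Y := by
  intro N
  induction N using Nat.strong_induction_on with
  | _ N ih =>
    intro M hN hM hort
    by_cases hne : M = ⊥
    · subst hne
      refine ⟨Empty, inferInstance, Empty.elim, Empty.elim, ?_⟩
      refine ⟨fun i => i.elim, fun i => i.elim, fun i => i.elim, fun i => i.elim, fun i => i.elim,
        fun i => i.elim, fun i => i.elim, fun v hv _ _ => (Submodule.mem_bot ℝ).1 hv,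
        fun i => i.elim, fun i => i.elim⟩
    · obtain ⟨x, hx, y, hy, hx1, hy1, hxy, hK⟩ := exists_plane hB ht M hM hort hne
      set M' : Submodule ℝ (E n) := M ⊓ (Submodule.span ℝ {x, y})ᗮ with hM'
      have mem' : ∀ v, v ∈ M' ↔ v ∈ M ∧ (⟪x, v⟫ : ℝ) = 0 ∧ (⟪y, v⟫ : ℝ) = 0 := by
        intro v
        rw [hM', Submodule.mem_inf, Submodule.mem_orthogonal]
        constructor
        · rintro ⟨h1, h2⟩
          exact ⟨h1, h2 x (Submodule.subset_span (by simp)), h2 y (Submodule.subset_span (by simp))⟩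
        · rintro ⟨h1, h2, h3⟩
          refine ⟨h1, fun u hu => ?_⟩
          obtain ⟨a, b, rfl⟩ := Submodule.mem_span_pair.1 hu
          rw [inner_add_left, real_inner_smul_left, real_inner_smul_left, h2, h3]
          ring
      have hxn : x ∉ M' := by
        intro h
        have := ((mem' x).1 h).2.1
        rw [real_inner_self_eq_norm_sq, hx1] at this
        norm_num at this
      have hlt : M' < M := by
        refine lt_of_le_of_ne inf_le_left fun h => hxn ?_
        rw [h]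
        exact hx
      have hfr : Module.finrank ℝ M' < N := by
        rw [← hN]
        exact Submodule.finrank_lt_finrank_of_lt hlt
      have hinv' : ∀ H ∈ t, ∀ v ∈ M', B H v ∈ M' := by
        intro H hH v hv
        obtain ⟨h1, h2, h3⟩ := (mem' v).1 hv
        rw [mem']
        refine ⟨hM H hH v h1, ?_, ?_⟩
        · have h4 : (⟪v, y⟫ : ℝ) = 0 := by rw [real_inner_comm]; exact h3
          rw [← real_inner_comm, hB.inv, (hK H hH).1, real_inner_smul_right, h4]
          ring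
        · have h4 : (⟪v, x⟫ : ℝ) = 0 := by rw [real_inner_comm]; exact h2
          rw [← real_inner_comm, hB.inv, (hK H hH).2, inner_neg_right, real_inner_smul_right, h4]
          ring
      obtain ⟨ι, hι, X, Y, hF⟩ := ih _ hfr M' rfl hinv'
        (fun v hv H hH => hort v ((mem' v).1 hv).1 H hH)
      have px : ∀ i, (⟪x, X i⟫ : ℝ) = 0 := fun i => ((mem' _).1 (hF.memX i)).2.1
      have py : ∀ i, (⟪y, X i⟫ : ℝ) = 0 := fun i => ((mem' _).1 (hF.memX i)).2.2
      have qx : ∀ i, (⟪x, Y i⟫ : ℝ) = 0 := fun i => ((mem' _).1 (hF.memY i)).2.1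
      have qy : ∀ i, (⟪y, Y i⟫ : ℝ) = 0 := fun i => ((mem' _).1 (hF.memY i)).2.2
      refine ⟨Option ι, inferInstance, fun o => o.elim x X, fun o => o.elim y Y, ?_⟩
      constructor
      · rintro (_ | i)
        · exact hx
        · exact ((mem' _).1 (hF.memX i)).1
      · rintro (_ | i)
        · exact hy
        · exact ((mem' _).1 (hF.memY i)).1
      · rintro (_ | i)
        · exact hx1
        · exact hF.nX i
      · rintro (_ | i)
        · exact hy1
        · exact hF.nY i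
      · rintro (_ | i) (_ | j) hij
        · exact absurd rfl hij
        · exact px j
        · simp only [Option.elim]
          rw [real_inner_comm]
          exact px i
        · exact hF.oXX i j fun h => hij (by rw [h])
      · rintro (_ | i) (_ | j) hij
        · exact absurd rfl hij
        · exact qy j
        · simp only [Option.elim]
          rw [real_inner_comm]
          exact qy i
        · exact hF.oYY i j fun h => hij (by rw [h])
      · rintro (_ | i) (_ | j)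
        · exact hxy
        · exact qx j
        · simp only [Option.elim]
          rw [real_inner_comm]
          exact py i
        · exact hF.oXY i j
      · intro v hv h1 h2
        have h3 : v ∈ M' := (mem' v).2 ⟨hv, h1 none, h2 none⟩
        exact hF.comp v h3 (fun i => h1 (some i)) (fun i => h2 (some i))
      · rintro (_ | i) H hH
        · exact (hK H hH).1
        · exact hF.rX i H hH
      · rintro (_ | i) H hH
        · exact (hK H hH).2
        · exact hF.rY i H hH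

/-- **existence of root data** -/
theorem exists_root (hB : CLie B) {t : Submodule ℝ (E n)} (ht : MaxAb B t)
    (hl : Module.finrank ℝ t = l) : ∃ (d : ℕ) (U : E l →ₗᵢ[ℝ] E n) (X Y : Fin d → E n)
    (α : Fin d → E l), Root B U X Y α ∧ (∀ z, U z ∈ t) ∧ (∀ x ∈ t, ∃ z, U z = x) := by
  obtain ⟨ι, hι, X0, Y0, hF⟩ := exists_fam hB ht _ tᗮ rfl
    (fun H hH v hv => by
      rw [Submodule.mem_orthogonal] at hv ⊢
      intro u hu
      have h1 := hB.inv H u v
      rw [ht.ab H hH u hu, inner_zero_left] at h1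
      linarith)
    (fun v hv H hH => by
      rw [real_inner_comm]
      exact (Submodule.mem_orthogonal _ _).1 hv H hH)
  set b0 : OrthonormalBasis (Fin l) ℝ t := (stdOrthonormalBasis ℝ t).reindex (finCongr hl) with hb0
  set U : E l →ₗᵢ[ℝ] E n := t.subtypeₗᵢ.comp b0.repr.symm.toLinearIsometry with hU
  have hUt : ∀ z, U z ∈ t := fun z => (b0.repr.symm z).2
  have hUs : ∀ x ∈ t, ∃ z, U z = x := by
    intro x hx
    refine ⟨b0.repr ⟨x, hx⟩, ?_⟩
    change ((b0.repr.symm (b0.repr ⟨x, hx⟩) : t) : E n) = x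
    rw [LinearIsometryEquiv.symm_apply_apply]
  set d := Fintype.card ι with hd
  set eq : Fin d ≃ ι := (Fintype.equivFin ι).symm with heq
  have hbr : ∀ j, B (X0 (eq j)) (Y0 (eq j)) ∈ t := by
    intro j
    apply ht.max
    intro H hH
    rw [hB.skew, hB.jac, hF.rX _ H hH, hF.rY _ H hH, map_smul, LinearMap.smul_apply, hB.alt,
      map_neg, map_smul, hB.alt]
    simp
  choose α hα using fun j => hUs _ (hbr j)
  refine ⟨d, U, fun j => X0 (eq j), fun j => Y0 (eq j), α, ?_, hUt, hUs⟩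
  have hdot : ∀ j z, (⟪B (X0 (eq j)) (Y0 (eq j)), U z⟫ : ℝ) = ⟪α j, z⟫ := by
    intro j z
    rw [← hα j, U.inner_map_map]
  have hort : ∀ v ∈ tᗮ, ∀ z, (⟪U z, v⟫ : ℝ) = 0 := fun v hv z =>
    (Submodule.mem_orthogonal _ _).1 hv _ (hUt z)
  constructor
  · -- the orthonormal basis
    set v : Fin l ⊕ (Fin d ⊕ Fin d) → E n := Sum.elim (fun i => U (un i))
      (Sum.elim (fun j => X0 (eq j)) (fun j => Y0 (eq j))) with hv
    have hon : Orthonormal ℝ v := by
      constructor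
      · rintro (i | j | j)
        · change ‖U (un i)‖ = 1
          rw [U.norm_map]
          simp
        · exact hF.nX _
        · exact hF.nY _
      · rintro (i | j | j) (i' | j' | j') hij
        · change (⟪U (un i), U (un i')⟫ : ℝ) = 0
          rw [U.inner_map_map, EuclideanSpace.inner_single_left]
          have : i ≠ i' := fun h => hij (by rw [h])
          simp [this]
        · exact hort _ (hF.memX _) _
        · exact hort _ (hF.memY _) _
        · change (⟪X0 (eq j), U (un i')⟫ : ℝ) = 0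
          rw [real_inner_comm]
          exact hort _ (hF.memX _) _
        · exact hF.oXX _ _ fun h => hij (by rw [eq.injective h])
        · exact hF.oXY _ _
        · change (⟪Y0 (eq j), U (un i')⟫ : ℝ) = 0
          rw [real_inner_comm]
          exact hort _ (hF.memY _) _
        · change (⟪Y0 (eq j), X0 (eq j')⟫ : ℝ) = 0
          rw [real_inner_comm]
          exact hF.oXY _ _
        · exact hF.oYY _ _ fun h => hij (by rw [eq.injective h])
    have hsp : (Submodule.span ℝ (Set.range v))ᗮ = ⊥ := by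
      rw [Submodule.eq_bot_iff]
      intro w hw
      rw [Submodule.mem_orthogonal] at hw
      have hw' : ∀ k, (⟪v k, w⟫ : ℝ) = 0 := fun k => hw _ (Submodule.subset_span ⟨k, rfl⟩)
      have hwt : w ∈ tᗮ := by
        rw [Submodule.mem_orthogonal]
        intro u hu
        obtain ⟨z, rfl⟩ := hUs u hu
        rw [sum_un z, map_sum, sum_inner]
        refine Finset.sum_eq_zero fun i _ => ?_
        rw [map_smul, real_inner_smul_left]
        have := hw' (Sum.inl i)
        change (⟪U (un i), w⟫ : ℝ) = 0 at this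
        rw [this, mul_zero]
      refine hF.comp w hwt (fun i => ?_) (fun i => ?_)
      · have := hw' (Sum.inr (Sum.inl (eq.symm i)))
        change (⟪X0 (eq (eq.symm i)), w⟫ : ℝ) = 0 at this
        rwa [Equiv.apply_symm_apply] at this
      · have := hw' (Sum.inr (Sum.inr (eq.symm i)))
        change (⟪Y0 (eq (eq.symm i)), w⟫ : ℝ) = 0 at this
        rwa [Equiv.apply_symm_apply] at this
    refine ⟨OrthonormalBasis.mkOfOrthogonalEqBot hon hsp, fun i => ?_, fun j => ?_, fun j => ?_⟩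
    · rw [OrthonormalBasis.coe_of_orthogonal_eq_bot_mk]
      rfl
    · rw [OrthonormalBasis.coe_of_orthogonal_eq_bot_mk]
      rfl
    · rw [OrthonormalBasis.coe_of_orthogonal_eq_bot_mk]
      rfl
  · intro z j
    rw [hF.rX _ _ (hUt z), hdot]
  · intro z j
    rw [hF.rY _ _ (hUt z), hdot]
  · intro j
    exact (hα j).symm
  · intro j h0
    have h1 : X0 (eq j) ∈ t := by
      apply ht.max
      intro y hy
      rw [hB.skew, hF.rX _ y hy, ← hα j, h0, map_zero, inner_zero_left, zero_smul, neg_zero]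
    have h2 := (Submodule.mem_orthogonal _ _).1 (hF.memX (eq j)) _ h1
    rw [real_inner_self_eq_norm_sq, hF.nX] at h2
    norm_num at h2

end Pool.Agent.H72.Li
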