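import Mathlib
import Pool.Agent.H72.Li.L5
set_option autoImplicit false

/-! The roots are pairwise not proportional. -/

open MeasureTheory Set Metric
open scoped ENNReal RealInnerProductSpace

namespace Pool.Agent.H72.Li

open Pool.Agent.H789R2.FR (E sg T sg_finite sg_ae sg_inv)
open Pool.Agent.W5h55.SH
open Pool.Agent.H72.Co

variable {n l d : ℕ}
variable {B : E n →ₗ[ℝ] E n →ₗ[ℝ] E n} {U : E l →ₗᵢ[ℝ] E n} {X Y : Fin d → E n} {α : Fin d → E l}

theorem prod_zero {u w : E l} (h : ∀ z, (⟪u, z⟫ : ℝ) * ⟪w, z⟫ = 0) : u = 0 ∨ w = 0 := by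
  by_contra hcon
  push Not at hcon
  obtain ⟨hu, hw⟩ := hcon
  have h1 := h u
  rw [real_inner_self_eq_norm_sq] at h1
  have hu2 : 0 < ‖u‖ ^ 2 := by
    have := norm_pos_iff.2 hu
    positivity
  have hw2 : 0 < ‖w‖ ^ 2 := by
    have := norm_pos_iff.2 hw
    positivity
  have h2 : (⟪w, u⟫ : ℝ) = 0 := by
    rcases mul_eq_zero.1 h1 with h | h
    · linarith
    · exact h
  have h3 := h (u + w)
  rw [inner_add_right, inner_add_right, real_inner_self_eq_norm_sq, real_inner_self_eq_norm_sq,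
    real_inner_comm w u] at h3
  rw [h2] at h3
  nlinarith [mul_pos hu2 hw2]

theorem comp_root {β γ : E l} (p : ℝ) (hp : p ≠ 0)
    (h : ∀ z, (⟪β, z⟫ : ℝ) ^ 2 * p = (⟪γ, z⟫ : ℝ) ^ 2 * p) : β = γ ∨ β = -γ := by
  have h1 : ∀ z, (⟪β - γ, z⟫ : ℝ) * ⟪β + γ, z⟫ = 0 := by
    intro z
    have h2 := mul_right_cancel₀ hp (h z)
    rw [inner_sub_left, inner_add_left]
    linear_combination h2
  rcases prod_zero h1 with h2 | h2
  · exact Or.inl (sub_eq_zero.1 h2)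
  · exact Or.inr (eq_neg_of_add_eq_zero_left h2)

theorem eq_zero_of_basis {ι : Type*} [Fintype ι] (b : OrthonormalBasis ι ℝ (E n)) {v : E n}
    (h : ∀ i, (⟪v, b i⟫ : ℝ) = 0) : v = 0 := by
  rw [← b.sum_repr' v]
  refine Finset.sum_eq_zero fun i _ => ?_
  rw [real_inner_comm, h, zero_smul]

/-- differences of roots -/
theorem root_diff (hB : CLie B) (hR : Root B U X Y α) (i : Fin d) (Z W : E n) (β : E l)
    (hZ1 : ‖Z‖ = 1) (hZ : ∀ z, B (U z) Z = (⟪β, z⟫ : ℝ) • W)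
    (hW : ∀ z, B (U z) W = -((⟪β, z⟫ : ℝ) • Z)) (hZt : ∀ z, (⟪Z, U z⟫ : ℝ) = 0)
    (hWt : ∀ z, (⟪W, U z⟫ : ℝ) = 0) (hZX : (⟪Z, X i⟫ : ℝ) = 0) (hZY : (⟪Z, Y i⟫ : ℝ) = 0)
    (hWX : (⟪W, X i⟫ : ℝ) = 0) (hWY : (⟪W, Y i⟫ : ℝ) = 0) (hpos : 0 < (⟪β, α i⟫ : ℝ)) :
    ∃ k, k ≠ i ∧ (α k = α i - β ∨ α k = -(α i - β)) := by
  obtain ⟨b, hb1, hb2, hb3⟩ := hR.basis
  set P : E n := B (X i) Z + B (Y i) W with hP
  set Q : E n := B (Y i) Z - B (X i) W with hQ
  -- `P` and `Q` do not both vanish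
  have hne : ¬ (P = 0 ∧ Q = 0) := by
    rintro ⟨hP0, hQ0⟩
    have e1 : B (Y i) W = -B (X i) Z := by
      rw [hP] at hP0
      exact eq_neg_of_add_eq_zero_right hP0
    have e2 : B (X i) W = B (Y i) Z := by
      rw [hQ] at hQ0
      exact (sub_eq_zero.1 hQ0).symm
    have k1 : (⟪B (X i) Z, B (Y i) W⟫ : ℝ) - ⟪B (Y i) Z, B (X i) W⟫ = ⟪β, α i⟫ := by
      rw [hB.inv (X i) Z, hB.inv (Y i) Z, hB.jac (X i) (Y i) W, inner_add_right, hR.hXY, hW,
        inner_neg_right, real_inner_smul_right, real_inner_self_eq_norm_sq, hZ1]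
      ring
    rw [e1, e2, inner_neg_right, real_inner_self_eq_norm_sq, real_inner_self_eq_norm_sq] at k1
    nlinarith [sq_nonneg ‖B (X i) Z‖, sq_nonneg ‖B (Y i) Z‖]
  -- weights
  have wP : ∀ z, B (U z) P = (⟪α i - β, z⟫ : ℝ) • Q := by
    intro z
    rw [hP, hQ, map_add, hB.jac (U z) (X i) Z, hB.jac (U z) (Y i) W, hR.hX, hR.hY, hZ, hW,
      inner_sub_left]
    simp only [map_smul, map_neg, LinearMap.smul_apply, LinearMap.neg_apply]
    module
  have wQ : ∀ z, B (U z) Q = -((⟪α i - β, z⟫ : ℝ) • P) := by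
    intro z
    rw [hP, hQ, map_sub, hB.jac (U z) (Y i) Z, hB.jac (U z) (X i) W, hR.hX, hR.hY, hZ, hW,
      inner_sub_left]
    simp only [map_smul, map_neg, LinearMap.smul_apply, LinearMap.neg_apply]
    module
  -- orthogonality
  have hBU : ∀ z, B (X i) (U z) = -((⟪α i, z⟫ : ℝ) • Y i) := by
    intro z
    rw [hB.skew, hR.hX]
  have hBU2 : ∀ z, B (Y i) (U z) = (⟪α i, z⟫ : ℝ) • X i := by
    intro z
    rw [hB.skew, hR.hY, neg_neg]
  have tP : ∀ z, (⟪P, U z⟫ : ℝ) = 0 := by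
    intro z
    rw [hP, inner_add_left, hB.inv, hB.inv, hBU, hBU2, inner_neg_right, real_inner_smul_right,
      real_inner_smul_right, hZY, hWX]
    ring
  have tQ : ∀ z, (⟪Q, U z⟫ : ℝ) = 0 := by
    intro z
    rw [hQ, inner_sub_left, hB.inv, hB.inv, hBU, hBU2, inner_neg_right, real_inner_smul_right,
      real_inner_smul_right, hZX, hWY]
    ring
  have hXX : B (X i) (X i) = 0 := hB.alt _
  have hYY : B (Y i) (Y i) = 0 := hB.alt _
  have hYX : B (Y i) (X i) = -U (α i) := by rw [hB.skew, hR.hXY]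
  have pX : (⟪P, X i⟫ : ℝ) = 0 := by
    rw [hP, inner_add_left, hB.inv, hB.inv, hXX, hYX, inner_neg_right, hWt, inner_zero_right]
    ring
  have pY : (⟪P, Y i⟫ : ℝ) = 0 := by
    rw [hP, inner_add_left, hB.inv, hB.inv, hYY, hR.hXY, hZt, inner_zero_right]
    ring
  have qX : (⟪Q, X i⟫ : ℝ) = 0 := by
    rw [hQ, inner_sub_left, hB.inv, hB.inv, hXX, hYX, inner_neg_right, hZt, inner_zero_right]
    ring
  have qY : (⟪Q, Y i⟫ : ℝ) = 0 := by
    rw [hQ, inner_sub_left, hB.inv, hB.inv, hYY, hR.hXY, hWt, inner_zero_right]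
    ring
  -- a nonzero component
  have hcomp : ∃ k, (⟪P, X k⟫ : ℝ) ≠ 0 ∨ (⟪P, Y k⟫ : ℝ) ≠ 0 ∨ (⟪Q, X k⟫ : ℝ) ≠ 0 ∨
      (⟪Q, Y k⟫ : ℝ) ≠ 0 := by
    by_contra hcon
    push Not at hcon
    apply hne
    constructor
    · apply eq_zero_of_basis b
      rintro (k | k | k)
      · rw [hb1, tP]
      · rw [hb2, (hcon k).1]
      · rw [hb3, (hcon k).2.1]
    · apply eq_zero_of_basis b
      rintro (k | k | k)
      · rw [hb1, tQ]
      · rw [hb2, (hcon k).2.2.1]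
      · rw [hb3, (hcon k).2.2.2]
  obtain ⟨k, hk⟩ := hcomp
  refine ⟨k, ?_, ?_⟩
  · rintro rfl
    rcases hk with h | h | h | h
    · exact h pX
    · exact h pY
    · exact h qX
    · exact h qY
  · -- the four relations
    have r1 : ∀ z, (⟪α k, z⟫ : ℝ) * ⟪P, Y k⟫ = -(⟪α i - β, z⟫ * ⟪Q, X k⟫) := by
      intro z
      have h1 := hB.inv (U z) P (X k)
      rw [wP, hR.hX, real_inner_smul_left, real_inner_smul_right] at h1
      linarith
    have r2 : ∀ z, (⟪α k, z⟫ : ℝ) * ⟪P, X k⟫ = ⟪α i - β, z⟫ * ⟪Q, Y k⟫ := by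
      intro z
      have h1 := hB.inv (U z) P (Y k)
      rw [wP, hR.hY, inner_neg_right, real_inner_smul_left, real_inner_smul_right] at h1
      linarith
    have r3 : ∀ z, (⟪α k, z⟫ : ℝ) * ⟪Q, Y k⟫ = ⟪α i - β, z⟫ * ⟪P, X k⟫ := by
      intro z
      have h1 := hB.inv (U z) Q (X k)
      rw [wQ, hR.hX, inner_neg_left, real_inner_smul_left, real_inner_smul_right] at h1
      linarith
    have r4 : ∀ z, (⟪α k, z⟫ : ℝ) * ⟪Q, X k⟫ = -(⟪α i - β, z⟫ * ⟪P, Y k⟫) := by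
      intro z
      have h1 := hB.inv (U z) Q (Y k)
      rw [wQ, hR.hY, inner_neg_left, inner_neg_right, real_inner_smul_left,
        real_inner_smul_right] at h1
      linarith
    rcases hk with h | h | h | h
    · refine comp_root _ h fun z => ?_
      linear_combination (⟪α k, z⟫ : ℝ) * r2 z + (⟪α i - β, z⟫ : ℝ) * r3 z
    · refine comp_root _ h fun z => ?_
      linear_combination (⟪α k, z⟫ : ℝ) * r1 z - (⟪α i - β, z⟫ : ℝ) * r4 z
    · refine comp_root _ h fun z => ?_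
      linear_combination (⟪α k, z⟫ : ℝ) * r4 z - (⟪α i - β, z⟫ : ℝ) * r1 z
    · refine comp_root _ h fun z => ?_
      linear_combination (⟪α k, z⟫ : ℝ) * r3 z + (⟪α i - β, z⟫ : ℝ) * r2 z

/-- orthogonality relations in root data -/
theorem root_orth (hR : Root B U X Y α) : (∀ j, ‖X j‖ = 1) ∧ (∀ j, ‖Y j‖ = 1) ∧
    (∀ j z, (⟪X j, U z⟫ : ℝ) = 0) ∧ (∀ j z, (⟪Y j, U z⟫ : ℝ) = 0) ∧
    (∀ i j, i ≠ j → (⟪X i, X j⟫ : ℝ) = 0) ∧ (∀ i j, i ≠ j → (⟪Y i, Y j⟫ : ℝ) = 0) ∧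
    (∀ i j, (⟪X i, Y j⟫ : ℝ) = 0) := by
  obtain ⟨b, hb1, hb2, hb3⟩ := hR.basis
  have ho := b.orthonormal
  have hU : ∀ v : E n, (∀ i : Fin l, (⟪v, U (un i)⟫ : ℝ) = 0) → ∀ z, (⟪v, U z⟫ : ℝ) = 0 := by
    intro v hv z
    rw [sum_un z, map_sum, inner_sum]
    refine Finset.sum_eq_zero fun i _ => ?_
    rw [map_smul, real_inner_smul_right, hv, mul_zero]
  refine ⟨fun j => ?_, fun j => ?_, fun j => hU _ fun i => ?_, fun j => hU _ fun i => ?_,
    fun i j hij => ?_, fun i j hij => ?_, fun i j => ?_⟩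
  · rw [← hb2]; exact ho.1 _
  · rw [← hb3]; exact ho.1 _
  · rw [← hb2, ← hb1]; exact ho.2 (by simp)
  · rw [← hb3, ← hb1]; exact ho.2 (by simp)
  · rw [← hb2, ← hb2]; exact ho.2 (by simpa using hij)
  · rw [← hb3, ← hb3]; exact ho.2 (by simpa using hij)
  · rw [← hb2, ← hb3]; exact ho.2 (by simp)

/-- **distinct roots are not proportional** -/
theorem reduced (hB : CLie B) (hR : Root B U X Y α) (i j : Fin d) (hij : i ≠ j) (c : ℝ) :
    α j ≠ c • α i := by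
  classical
  intro hc
  obtain ⟨o1, o2, o3, o4, o5, o6, o7⟩ := root_orth hR
  -- a pair with minimal sum of lengths
  set S : Finset (Fin d × Fin d) := Finset.univ.filter fun p => p.1 ≠ p.2 ∧ ∃ c : ℝ, α p.2 = c • α p.1
    with hS
  have hSne : S.Nonempty := ⟨(i, j), by
    rw [hS, Finset.mem_filter]
    exact ⟨Finset.mem_univ _, hij, c, hc⟩⟩
  obtain ⟨⟨i0, j0⟩, hmem, hmin⟩ := S.exists_min_image (fun p => ‖α p.1‖ + ‖α p.2‖) hSne
  have hmin' : ∀ i' j', i' ≠ j' → (∃ c : ℝ, α j' = c • α i') →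
      ‖α i0‖ + ‖α j0‖ ≤ ‖α i'‖ + ‖α j'‖ := fun i' j' h1 h2 =>
    hmin (i', j') (by simp [hS, h1, h2])
  simp only [hS, Finset.mem_filter, Finset.mem_univ, true_and] at hmem
  obtain ⟨hij0, c0, hc0⟩ := hmem
  have hc00 : c0 ≠ 0 := by
    rintro rfl
    rw [zero_smul] at hc0
    exact hR.ne j0 hc0
  -- the main step for an ordered pair
  have step : ∀ i1 j1 : Fin d, i1 ≠ j1 → ∀ c : ℝ, α j1 = c • α i1 → 1 ≤ |c| →
      ‖α i0‖ + ‖α j0‖ = ‖α i1‖ + ‖α j1‖ → False := by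
    intro i1 j1 h1 c h2 hc1 hsum
    have hni : 0 < ‖α i1‖ := norm_pos_iff.2 (hR.ne i1)
    have hnj : ‖α j1‖ = |c| * ‖α i1‖ := by rw [h2, norm_smul, Real.norm_eq_abs]
    have hex : ∃ k, k ≠ i1 ∧ (α k = α i1 - |c| • α i1 ∨ α k = -(α i1 - |c| • α i1)) := by
      rcases le_or_gt 0 c with h | h
      · rw [abs_of_nonneg h, ← h2]
        refine root_diff hB hR i1 (X j1) (Y j1) (α j1) (o1 _) (fun z => hR.hX z j1)
          (fun z => hR.hY z j1) (o3 j1) (o4 j1) (o5 _ _ h1.symm) (o7 _ _) ?_ (o6 _ _ h1.symm) ?_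
        · rw [real_inner_comm]; exact o7 _ _
        · rw [h2, real_inner_smul_left, real_inner_self_eq_norm_sq]
          rw [abs_of_nonneg h] at hc1
          positivity
      · rw [abs_of_neg h, neg_smul, ← h2]
        refine root_diff hB hR i1 (Y j1) (X j1) (-α j1) (o2 _) (fun z => ?_)
          (fun z => ?_) (o4 j1) (o3 j1) ?_ (o6 _ _ h1.symm) (o5 _ _ h1.symm) (o7 _ _) ?_
        · rw [hR.hY, inner_neg_left, neg_smul]
        · rw [hR.hX, inner_neg_left, neg_smul, neg_neg]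
        · rw [real_inner_comm]; exact o7 _ _
        · rw [h2, inner_neg_left, real_inner_smul_left, real_inner_self_eq_norm_sq]
          have : 0 < -c := by linarith
          have : 0 < -c * ‖α i1‖ ^ 2 := by positivity
          linarith
    obtain ⟨k, hk1, hk2⟩ := hex
    have e1 : α i1 - |c| • α i1 = (1 - |c|) • α i1 := by rw [sub_smul, one_smul]
    rw [e1] at hk2
    have hkn : ‖α k‖ = (|c| - 1) * ‖α i1‖ := by
      rcases hk2 with h | h
      · rw [h, norm_smul, Real.norm_eq_abs, abs_of_nonpos (by linarith)]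
        ring
      · rw [h, norm_neg, norm_smul, Real.norm_eq_abs, abs_of_nonpos (by linarith)]
        ring
    have h5 := hmin' i1 k hk1.symm (by
      rcases hk2 with h | h
      · exact ⟨_, h⟩
      · exact ⟨-(1 - |c|), by rw [h, neg_smul]⟩)
    rw [hsum, hkn, hnj] at h5
    nlinarith
  rcases le_or_gt 1 |c0| with h | h
  · exact step i0 j0 hij0 c0 hc0 h rfl
  · refine step j0 i0 hij0.symm c0⁻¹ ?_ ?_ (add_comm _ _)
    · rw [hc0, smul_smul, inv_mul_cancel₀ hc00, one_smul]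
    · rw [abs_inv]
      exact (one_le_inv₀ (abs_pos.2 hc00)).2 h.le

end Pool.Agent.H72.Li
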