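import Mathlib
import Pool.Agent.H72.Li.L6
set_option autoImplicit false

/-! The product of the roots is odd under the reflections, and harmonic. -/

open MeasureTheory Set Metric
open scoped ENNReal RealInnerProductSpace

namespace Pool.Agent.H72.Li

open Pool.Agent.H789R2.FR (E sg T sg_finite sg_ae sg_inv)
open Pool.Agent.W5h55.SH
open Pool.Agent.H72.Co

variable {n l d : ℕ}
variable {B : E n →ₗ[ℝ] E n →ₗ[ℝ] E n} {U : E l →ₗᵢ[ℝ] E n} {X Y : Fin d → E n} {α : Fin d → E l}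

/-- every weight is a root -/
theorem weight_root (hB : CLie B) (hR : Root B U X Y α) (P Q : E n) (β : E l)
    (wP : ∀ z, B (U z) P = (⟪β, z⟫ : ℝ) • Q) (wQ : ∀ z, B (U z) Q = -((⟪β, z⟫ : ℝ) • P))
    (tP : ∀ z, (⟪P, U z⟫ : ℝ) = 0) (tQ : ∀ z, (⟪Q, U z⟫ : ℝ) = 0) (hne : ¬ (P = 0 ∧ Q = 0)) :
    ∃ k, α k = β ∨ α k = -β := by
  obtain ⟨b, hb1, hb2, hb3⟩ := hR.basis
  have hcomp : ∃ k, (⟪P, X k⟫ : ℝ) ≠ 0 ∨ (⟪P, Y k⟫ : ℝ) ≠ 0 ∨ (⟪Q, X k⟫ : ℝ) ≠ 0 ∨
      (⟪Q, Y k⟫ : ℝ) ≠ 0 := by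
    by_contra hcon
    push Not at hcon
    apply hne
    constructor
    · apply eq_zero_of_basis b
      rintro (k | k | k)
      · rw [hb1, tP]
      · rw [hb2, (hcon k).1]
      · rw [hb3, (hcon k).2.1]
    · apply eq_zero_of_basis b
      rintro (k | k | k)
      · rw [hb1, tQ]
      · rw [hb2, (hcon k).2.2.1]
      · rw [hb3, (hcon k).2.2.2]
  obtain ⟨k, hk⟩ := hcomp
  refine ⟨k, ?_⟩
  have r1 : ∀ z, (⟪α k, z⟫ : ℝ) * ⟪P, Y k⟫ = -(⟪β, z⟫ * ⟪Q, X k⟫) := by
    intro z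
    have h1 := hB.inv (U z) P (X k)
    rw [wP, hR.hX, real_inner_smul_left, real_inner_smul_right] at h1
    linarith
  have r2 : ∀ z, (⟪α k, z⟫ : ℝ) * ⟪P, X k⟫ = ⟪β, z⟫ * ⟪Q, Y k⟫ := by
    intro z
    have h1 := hB.inv (U z) P (Y k)
    rw [wP, hR.hY, inner_neg_right, real_inner_smul_left, real_inner_smul_right] at h1
    linarith
  have r3 : ∀ z, (⟪α k, z⟫ : ℝ) * ⟪Q, Y k⟫ = ⟪β, z⟫ * ⟪P, X k⟫ := by
    intro z
    have h1 := hB.inv (U z) Q (X k)
    rw [wQ, hR.hX, inner_neg_left, real_inner_smul_left, real_inner_smul_right] at h1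
    linarith
  have r4 : ∀ z, (⟪α k, z⟫ : ℝ) * ⟪Q, X k⟫ = -(⟪β, z⟫ * ⟪P, Y k⟫) := by
    intro z
    have h1 := hB.inv (U z) Q (Y k)
    rw [wQ, hR.hY, inner_neg_left, inner_neg_right, real_inner_smul_left,
      real_inner_smul_right] at h1
    linarith
  rcases hk with h | h | h | h
  · refine comp_root _ h fun z => ?_
    linear_combination (⟪α k, z⟫ : ℝ) * r2 z + (⟪β, z⟫ : ℝ) * r3 z
  · refine comp_root _ h fun z => ?_
    linear_combination (⟪α k, z⟫ : ℝ) * r1 z - (⟪β, z⟫ : ℝ) * r4 z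
  · refine comp_root _ h fun z => ?_
    linear_combination (⟪α k, z⟫ : ℝ) * r4 z - (⟪β, z⟫ : ℝ) * r1 z
  · refine comp_root _ h fun z => ?_
    linear_combination (⟪α k, z⟫ : ℝ) * r3 z + (⟪β, z⟫ : ℝ) * r2 z

theorem rf_inner (a z w : E l) : (⟪rf a z, w⟫ : ℝ) = ⟪z, rf a w⟫ := by
  unfold rf
  rw [inner_sub_left, inner_sub_right, real_inner_smul_left, real_inner_smul_right]
  have := real_inner_comm a z
  rw [this]
  ring

theorem rf_rf {a : E l} (ha : ‖a‖ = 1) (z : E l) : rf a (rf a z) = z := by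
  unfold rf
  rw [inner_sub_right, real_inner_smul_right, real_inner_self_eq_norm_sq, ha]
  module

theorem unit_norm (hR : Root B U X Y α) (i : Fin d) : ‖‖α i‖⁻¹ • α i‖ = 1 := by
  have := norm_pos_iff.2 (hR.ne i)
  rw [norm_smul, norm_inv, norm_norm, inv_mul_cancel₀ this.ne']

/-- the reflections permute the roots up to sign -/
theorem perm (hB : CLie B) (hR : Root B U X Y α) (i j : Fin d) :
    ∃ k, ∃ ε : ℝ, (ε = 1 ∨ ε = -1) ∧ α k = ε • rf (‖α i‖⁻¹ • α i) (α j) := by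
  obtain ⟨o1, o2, o3, o4, o5, o6, o7⟩ := root_orth hR
  obtain ⟨a, ha⟩ : ∃ a, a = ‖α i‖⁻¹ • α i := ⟨_, rfl⟩
  have hna : ‖a‖ = 1 := by rw [ha]; exact unit_norm hR i
  rw [← ha]
  obtain ⟨t, ht⟩ : ∃ t, t = Real.pi / ‖α i‖ := ⟨_, rfl⟩
  have hk : ∀ z, ex (B (X i)) t (U z) = U (rf a z) := by
    intro z
    rw [ht, ha]
    exact ex_refl hB hR i z
  have hk2 : ∀ z, U z = ex (B (X i)) t (U (rf a z)) := by
    intro z
    rw [hk, rf_rf hna]
  obtain ⟨L, hL⟩ := ex_iso hB (X i) t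
  have hin : ∀ v w, (⟪ex (B (X i)) t v, ex (B (X i)) t w⟫ : ℝ) = ⟪v, w⟫ := by
    intro v w
    rw [← hL, ← hL, L.inner_map_map]
  obtain ⟨k, hk'⟩ := weight_root hB hR (ex (B (X i)) t (X j)) (ex (B (X i)) t (Y j)) (rf a (α j))
    (fun z => by
      conv_lhs => rw [hk2 z]
      rw [← ex_aut hB, hR.hX, rf_inner]
      simp only [map_smul])
    (fun z => by
      conv_lhs => rw [hk2 z]
      rw [← ex_aut hB, hR.hY, rf_inner]
      simp only [map_neg, map_smul])
    (fun z => by rw [hk2 z, hin, o3])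
    (fun z => by rw [hk2 z, hin, o4])
    (fun h => by
      have h1 := ex_norm hB (X i) (X j) t
      rw [h.1, norm_zero, o1] at h1
      exact zero_ne_one h1)
  rcases hk' with h | h
  · exact ⟨k, 1, Or.inl rfl, by rw [h, one_smul]⟩
  · exact ⟨k, -1, Or.inr rfl, by rw [h, neg_smul, one_smul]⟩

/-- **the product of the roots is odd** -/
theorem PiR_odd (hB : CLie B) (hR : Root B U X Y α) (i : Fin d) (z : E l) :
    ev (PiR α) (rf (‖α i‖⁻¹ • α i) z) = -ev (PiR α) z := by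
  obtain ⟨a, ha⟩ : ∃ a, a = ‖α i‖⁻¹ • α i := ⟨_, rfl⟩
  have hna : ‖a‖ = 1 := by rw [ha]; exact unit_norm hR i
  have hp := perm hB hR i
  rw [← ha] at hp ⊢
  choose σ ε hε hσ using hp
  have hrs : ∀ (c : ℝ) (v : E l), rf a (c • v) = c • rf a v := by
    intro c v
    unfold rf
    rw [real_inner_smul_right]
    module
  have hinv : ∀ j, σ (σ j) = j := by
    intro j
    by_contra hne
    refine reduced hB hR j (σ (σ j)) (Ne.symm hne) (ε (σ j) * ε j) ?_
    rw [hσ, hσ, hrs, rf_rf hna, smul_smul]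
  have hεε : ∀ j, ε j * ε (σ j) = 1 := by
    intro j
    have h1 := hσ (σ j)
    rw [hinv, hσ, hrs, rf_rf hna, smul_smul] at h1
    have h2 : (1 - ε (σ j) * ε j) • α j = 0 := by
      rw [sub_smul, one_smul, ← h1, sub_self]
    rcases smul_eq_zero.1 h2 with h3 | h3
    · linarith
    · exact absurd h3 (hR.ne j)
  have hai : rf a (α i) = -α i := by
    have hc : ‖α i‖ ≠ 0 := (norm_pos_iff.2 (hR.ne i)).ne'
    unfold rf
    rw [ha, real_inner_smul_left, real_inner_self_eq_norm_sq, smul_smul]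
    have : 2 * (‖α i‖⁻¹ * ‖α i‖ ^ 2) * ‖α i‖⁻¹ = 2 := by
      field_simp
    rw [this, two_smul]
    abel
  have hσi : σ i = i := by
    by_contra hne
    refine reduced hB hR i (σ i) (Ne.symm hne) (-ε i) ?_
    rw [hσ, hai, neg_smul, smul_neg]
  have hεi : ε i = -1 := by
    rcases hε i with h | h
    · exfalso
      have h1 := hσ i
      rw [hσi, hai, h, one_smul] at h1
      have h2 : (2 : ℝ) • α i = 0 := by
        rw [two_smul]
        nth_rewrite 2 [h1]
        exact add_neg_cancel _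
      rcases smul_eq_zero.1 h2 with h3 | h3
      · norm_num at h3
      · exact hR.ne i h3
    · exact h
  have hprod : ∏ j ∈ Finset.univ.erase i, ε j = 1 := by
    refine Finset.prod_involution (fun j _ => σ j) (fun j _ => hεε j) (fun j hj hj1 => ?_)
      (fun j hj => ?_) (fun j _ => hinv j)
    · intro hfix
      have hji : j ≠ i := Finset.ne_of_mem_erase hj
      have hej : ε j = -1 := by
        rcases hε j with h | h
        · exact absurd h hj1
        · exact h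
      have h1 := hσ j
      rw [hfix, hej, neg_smul, one_smul] at h1
      unfold rf at h1
      refine reduced hB hR i j hji.symm (⟪a, α j⟫ * ‖α i‖⁻¹) ?_
      have h2 : α j + α j = (2 * ⟪a, α j⟫) • a := by
        nth_rewrite 1 [h1]
        abel
      have h3 : (2 : ℝ) • α j = (2 : ℝ) • ((⟪a, α j⟫ : ℝ) • a) := by
        rw [two_smul, h2, smul_smul]
      have h4 := smul_right_injective (E l) (two_ne_zero (α := ℝ)) h3
      rw [mul_smul, ← ha]
      exact h4
    · refine Finset.mem_erase.2 ⟨fun h => ?_, Finset.mem_univ _⟩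
      have h1 := hinv j
      rw [h, hσi] at h1
      exact Finset.ne_of_mem_erase hj h1.symm
  have hall : ∏ j, ε j = -1 := by
    rw [← Finset.mul_prod_erase Finset.univ ε (Finset.mem_univ i), hprod, hεi, mul_one]
  rw [ev_PiR, ev_PiR, ← Complex.ofReal_neg]
  congr 1
  have h1 : ∀ j, (⟪α j, rf a z⟫ : ℝ) = ε j * ⟪α (σ j), z⟫ := by
    intro j
    rw [← rf_inner, hσ j, real_inner_smul_left, ← mul_assoc]
    rcases hε j with h | h <;> rw [h] <;> ring
  rw [Finset.prod_congr rfl fun j _ => h1 j, Finset.prod_mul_distrib, hall]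
  have hbij : Function.Bijective σ := Function.Involutive.bijective hinv
  rw [hbij.prod_comp fun j => (⟪α j, z⟫ : ℝ)]
  ring

/-- a polynomial vanishing on many hyperplanes -/
theorem many_planes {k : ℕ} (hk : k < d) (α : Fin d → E l) (h0 : ∀ j, α j ≠ 0)
    (hred : ∀ i j, i ≠ j → ∀ c : ℝ, α j ≠ c • α i) {Q : MvPolynomial (Fin l) ℂ}
    (hQ : Q.IsHomogeneous k) (hv : ∀ j z, (⟪α j, z⟫ : ℝ) = 0 → ev Q z = 0) : Q = 0 := by
  classical
  by_contra hQ0
  have hne1 : Q * PiR α ≠ 0 := mul_ne_zero hQ0 (PiR_ne h0)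
  obtain ⟨x, hx⟩ := exists_nonzero hne1
  rw [ev_mul] at hx
  have hx1 : ev Q x ≠ 0 := left_ne_zero_of_mul hx
  have hx2 : ∀ j, (⟪α j, x⟫ : ℝ) ≠ 0 := by
    intro j hj
    apply right_ne_zero_of_mul hx
    rw [ev_PiR, Finset.prod_eq_zero (Finset.mem_univ j) hj]
    simp
  set R : MvPolynomial (Fin l) ℂ := PiR α * ∏ p ∈ (Finset.univ : Finset (Fin d × Fin d)).filter
    (fun p => p.1 ≠ p.2), Lx ((⟪α p.1, x⟫ : ℝ) • α p.2 - (⟪α p.2, x⟫ : ℝ) • α p.1) with hR
  have hRne : R ≠ 0 := by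
    refine mul_ne_zero (PiR_ne h0) (Finset.prod_ne_zero_iff.2 fun p hp => Lx_ne ?_)
    intro hp0
    have hpne := (Finset.mem_filter.1 hp).2
    refine hred p.1 p.2 hpne ((⟪α p.1, x⟫ : ℝ)⁻¹ * ⟪α p.2, x⟫) ?_
    rw [mul_smul, ← sub_eq_zero.1 hp0, smul_smul, inv_mul_cancel₀ (hx2 _), one_smul]
  obtain ⟨y, hy⟩ := exists_nonzero hRne
  rw [hR, ev_mul] at hy
  have hy1 : ∀ j, (⟪α j, y⟫ : ℝ) ≠ 0 := by
    intro j hj
    apply left_ne_zero_of_mul hy
    rw [ev_PiR, Finset.prod_eq_zero (Finset.mem_univ j) hj]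
    simp
  have hy2 : ∀ i j, i ≠ j → (⟪α i, x⟫ : ℝ) * ⟪α j, y⟫ ≠ ⟪α j, x⟫ * ⟪α i, y⟫ := by
    intro i j hij heq
    apply right_ne_zero_of_mul hy
    unfold ev
    rw [map_prod]
    refine Finset.prod_eq_zero (i := (i, j)) (by simp [hij]) ?_
    have h1 := ev_Lx ((⟪α i, x⟫ : ℝ) • α j - (⟪α j, x⟫ : ℝ) • α i) y
    unfold ev at h1
    rw [h1, inner_sub_left, real_inner_smul_left, real_inner_smul_left, heq, sub_self]
    simp
  -- the polynomial along the line
  set F : Polynomial ℂ := MvPolynomial.aeval (fun i => Polynomial.C ((x i : ℝ) : ℂ) +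
    Polynomial.C ((y i : ℝ) : ℂ) * Polynomial.X) Q with hF
  have hev : ∀ t : ℝ, F.eval (t : ℂ) = ev Q (x + t • y) := by
    intro t
    rw [hF]
    clear hF hv hQ0 hx1 hx hne1 hQ
    induction Q using MvPolynomial.induction_on with
    | C a => simp [ev]
    | add p q hp hq => rw [map_add, Polynomial.eval_add, ev_add, hp, hq]
    | mul_X p i hp =>
      rw [map_mul, Polynomial.eval_mul, hp, ev_mul, ev_X, MvPolynomial.aeval_X, Polynomial.eval_add,
        Polynomial.eval_mul, Polynomial.eval_C, Polynomial.eval_C, Polynomial.eval_X,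
        PiLp.add_apply, PiLp.smul_apply, smul_eq_mul]
      push_cast
      ring
  have hdeg : F.natDegree < Fintype.card (Fin d) := by
    rw [Fintype.card_fin]
    refine lt_of_le_of_lt (MvPolynomial.aeval_natDegree_le Q hQ.totalDegree_le _ (n := 1)
      fun i => ?_) (by omega)
    refine (Polynomial.natDegree_add_le _ _).trans (max_le ?_ ?_)
    · rw [Polynomial.natDegree_C]; exact Nat.zero_le _
    · refine (Polynomial.natDegree_C_mul_le _ _).trans ?_
      rw [Polynomial.natDegree_X]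
  have hinj : Function.Injective fun j : Fin d => (((-(⟪α j, x⟫ / ⟪α j, y⟫) : ℝ)) : ℂ) := by
    intro i j hij
    by_contra hne
    apply hy2 i j hne
    have h1 := Complex.ofReal_injective hij
    have h2 : (⟪α i, x⟫ / ⟪α i, y⟫ : ℝ) = ⟪α j, x⟫ / ⟪α j, y⟫ := neg_injective h1
    rw [div_eq_div_iff (hy1 i) (hy1 j)] at h2
    exact h2
  have hF0 : F = 0 := by
    refine Polynomial.eq_zero_of_natDegree_lt_card_of_eval_eq_zero F hinj (fun j => ?_) hdeg
    rw [hev]
    apply hv j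
    rw [inner_add_right, real_inner_smul_right, neg_mul, div_mul_cancel₀ _ (hy1 j)]
    ring
  apply hx1
  have h1 := hev 0
  rw [zero_smul, add_zero, hF0] at h1
  simpa using h1.symm

/-- the Laplacian commutes with isometries -/
theorem lap_res (L : E l →ₗᵢ[ℝ] E l) (p : MvPolynomial (Fin l) ℂ) :
    lap (res L p) = res L (lap p) := by
  have hb : ∃ b : OrthonormalBasis (Fin l) ℝ (E l), ∀ i, b i = L (un i) := by
    refine ⟨(EuclideanSpace.basisFun (Fin l) ℝ).map (L.toLinearIsometryEquiv rfl), fun i => ?_⟩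
    simp [un]
  obtain ⟨b, hb⟩ := hb
  rw [lap_Dx, lap_basis b p, map_sum]
  refine Finset.sum_congr rfl fun i _ => ?_
  rw [Dx_res, Dx_res, hb]

/-- **the product of the roots is harmonic** -/
theorem PiR_harm (hB : CLie B) (hR : Root B U X Y α) : lap (PiR α) = 0 := by
  rcases Nat.lt_or_ge d 2 with hd | hd
  · exact lap_low hd (PiR_hom α)
  obtain ⟨k, rfl⟩ : ∃ k, d = k + 2 := ⟨d - 2, by omega⟩
  refine many_planes (k := k) (by omega) α hR.ne (fun i j hij c => reduced hB hR i j hij c)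
    (lap_hom (PiR_hom α)) fun j z hz => ?_
  obtain ⟨a, ha⟩ : ∃ a, a = ‖α j‖⁻¹ • α j := ⟨_, rfl⟩
  have hna : ‖a‖ = 1 := by rw [ha]; exact unit_norm hR j
  obtain ⟨L, hL⟩ : ∃ L : E l →ₗᵢ[ℝ] E l, ∀ z, L z = rf a z :=
    ⟨((ℝ ∙ a)ᗮ.reflection).toLinearIsometry, fun z => rf_eq hna z⟩
  have h1 : res L (PiR α) = -PiR α := by
    apply poly_ext
    intro w
    rw [ev_res, hL, ha, PiR_odd hB hR]
    simp [ev]
  have h2 : res L (lap (PiR α)) = -lap (PiR α) := by
    rw [← lap_res, h1]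
    have := lap_sub 0 (PiR α)
    rw [lap_zero, zero_sub, zero_sub] at this
    exact this
  have h3 := congrArg (fun q => ev q z) h2
  simp only [ev_res, hL] at h3
  have h4 : rf a z = z := by
    unfold rf
    rw [ha, real_inner_smul_left, hz, mul_zero, mul_zero, zero_smul, sub_zero]
  rw [h4] at h3
  have h5 : ev (-lap (PiR α)) z = -ev (lap (PiR α)) z := by simp [ev]
  rw [h5] at h3
  exact self_eq_neg.1 h3

/-- the reflections of the system -/
theorem reflL (hB : CLie B) (hR : Root B U X Y α) :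
    Refl d (PiR α) (WL B U) (fun j : Fin d => ‖α j‖⁻¹ • α j) where
  card := Fintype.card_fin d
  unit := unit_norm hR
  low := by
    refine ⟨∏ j, ‖α j‖, Finset.prod_pos fun j _ => norm_pos_iff.2 (hR.ne j), fun z => ?_⟩
    rw [ev_PiR, Complex.norm_real, Real.norm_eq_abs, Finset.abs_prod, ← Finset.prod_mul_distrib]
    refine Finset.prod_le_prod (fun j _ => by positivity) fun j _ => ?_
    have := norm_pos_iff.2 (hR.ne j)
    rw [real_inner_smul_left, abs_mul, abs_inv, abs_norm, ← mul_assoc, mul_inv_cancel₀ this.ne',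
      one_mul]
  odd := PiR_odd hB hR
  inv := fun k b hb j z => inv_refl hB hR k b hb j z

end Pool.Agent.H72.Li
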