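import Mathlib
import Pool.Agent.H72.Li.L7
set_option autoImplicit false

/-! Approximation of invariant functions by invariant polynomials. -/

open MeasureTheory Set Metric
open scoped ENNReal RealInnerProductSpace BoundedContinuousFunction

namespace Pool.Agent.H72.Li

open Pool.Agent.H789R2.FR (E sg T sg_finite sg_ae sg_inv)
open Pool.Agent.TH335.RF
open Pool.Agent.W5h55.SH
open Pool.Agent.H72.Co

variable {n l d : ℕ}

/-- a fixed vector has a fixed projection -/
theorem proj_fixed {H : Type*} [NormedAddCommGroup H] [InnerProductSpace ℂ H] (V : H →ₗᵢ[ℂ] H)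
    (K : Submodule ℂ H) (hVK : ∀ k ∈ K, V k ∈ K) {y z : H} (hy : y ∈ K) (hz : z ∈ Kᗮ)
    (hfix : V (y + z) = y + z) : V y = y := by
  have h1 : inner ℂ (V y) (V (y + z)) = inner ℂ y (y + z) := V.inner_map_map _ _
  rw [hfix, inner_add_right, inner_add_right, Submodule.inner_right_of_mem_orthogonal hy hz,
    Submodule.inner_right_of_mem_orthogonal (hVK y hy) hz, add_zero, add_zero] at h1
  have h2 : ‖V y - y‖ ^ 2 = 0 := by
    rw [norm_sub_sq (𝕜 := ℂ), h1, V.norm_map, inner_self_eq_norm_sq_to_K]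
    norm_cast
    ring
  have h3 : ‖V y - y‖ = 0 := by simpa using h2
  exact sub_eq_zero.1 (norm_eq_zero.1 h3)

/-- the algebra of polynomial functions -/
noncomputable def palg (n : ℕ) : Subalgebra ℝ C(E n, ℝ) where
  carrier := {φ | ∃ p : MvPolynomial (Fin n) ℂ, ∀ w : E n, ev p w = ((φ w : ℝ) : ℂ)}
  mul_mem' := by
    rintro φ ψ ⟨a, ha⟩ ⟨b, hb⟩
    refine ⟨a * b, fun w => ?_⟩
    rw [ev_mul, ha w, hb w]
    simp
  add_mem' := by
    rintro φ ψ ⟨a, ha⟩ ⟨b, hb⟩
    refine ⟨a + b, fun w => ?_⟩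
    rw [ev_add, ha w, hb w]
    simp
  algebraMap_mem' := by
    intro r
    refine ⟨MvPolynomial.C (r : ℂ), fun w => ?_⟩
    rw [ev_C]
    simp

theorem real_poly_approx (g : E n → ℝ) (hg : Continuous g) (ε : ℝ) (hε : 0 < ε) :
    ∃ p : MvPolynomial (Fin n) ℂ, ∀ w : E n, ‖w‖ = 1 → ‖ev p w - ((g w : ℝ) : ℂ)‖ ≤ ε := by
  have hsep : (palg n).SeparatesPoints := by
    intro x y hxy
    have h1 : ∃ i, x i ≠ y i := by
      by_contra hcon
      push Not at hcon
      apply hxy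
      ext i
      exact hcon i
    obtain ⟨j, hj⟩ := h1
    refine ⟨fun z => z j, ⟨⟨fun z => z j, by fun_prop⟩, ?_, rfl⟩, hj⟩
    exact ⟨MvPolynomial.X j, fun w => by rw [ev_X]; rfl⟩
  obtain ⟨φ, ⟨b, hb⟩, hφ⟩ :=
    ContinuousMap.exists_mem_subalgebra_near_continuous_of_isCompact_of_separatesPoints hsep
      ⟨g, hg⟩ (isCompact_sphere (0 : E n) 1) hε
  refine ⟨b, fun w hw => ?_⟩
  rw [hb w, ← Complex.ofReal_sub, Complex.norm_real]
  exact (hφ w (by simpa using hw)).le

theorem poly_approx (g : E n → ℂ) (hg : Continuous g) (ε : ℝ) (hε : 0 < ε) :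
    ∃ p : MvPolynomial (Fin n) ℂ, ∀ w : E n, ‖w‖ = 1 → ‖ev p w - g w‖ ≤ ε := by
  obtain ⟨p1, h1⟩ := real_poly_approx (fun x => (g x).re)
    (Complex.continuous_re.comp hg) (ε / 2) (by positivity)
  obtain ⟨p2, h2⟩ := real_poly_approx (fun x => (g x).im)
    (Complex.continuous_im.comp hg) (ε / 2) (by positivity)
  refine ⟨p1 + MvPolynomial.C Complex.I * p2, fun w hw => ?_⟩
  have e1 : ev (p1 + MvPolynomial.C Complex.I * p2) w - g w =
      (ev p1 w - (((g w).re : ℝ) : ℂ)) + Complex.I * (ev p2 w - (((g w).im : ℝ) : ℂ)) := by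
    rw [ev_add, ev_mul, ev_C]
    conv_lhs => rw [← Complex.re_add_im (g w)]
    ring
  rw [e1]
  refine (norm_add_le _ _).trans ?_
  rw [norm_mul, Complex.norm_I, one_mul]
  have := h1 w hw
  have := h2 w hw
  linarith

theorem memLp_of_cont {f : E n → ℂ} (hf : Continuous f) : MemLp f 2 (sg n) := by
  have := sg_finite n
  obtain ⟨C, hC⟩ := (isCompact_sphere (0 : E n) 1).exists_bound_of_continuousOn hf.continuousOn
  refine MemLp.of_bound hf.aestronglyMeasurable C ?_
  filter_upwards [sg_ae n] with w hw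
  exact hC w (by simpa using hw)

/-- polynomials as elements of the Hilbert space -/
noncomputable def Jp (n : ℕ) : MvPolynomial (Fin n) ℂ →ₗ[ℂ] Lp ℂ 2 (sg n) where
  toFun p := (memLp_of_cont (ev_cont p)).toLp (ev p)
  map_add' p q := by
    rw [← MemLp.toLp_add]
    congr 1
    funext w
    rw [ev_add]
    rfl
  map_smul' c p := by
    rw [RingHom.id_apply, ← MemLp.toLp_const_smul]
    congr 1
    funext w
    rw [MvPolynomial.smul_eq_C_mul, ev_mul, ev_C]
    rfl

theorem Jp_apply (p : MvPolynomial (Fin n) ℂ) : Jp n p = (memLp_of_cont (ev_cont p)).toLp (ev p) :=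
  rfl

theorem Jp_coe (p : MvPolynomial (Fin n) ℂ) : (Jp n p : E n → ℂ) =ᵐ[sg n] ev p :=
  MemLp.coeFn_toLp (memLp_of_cont (ev_cont p))

/-- density of polynomials -/
theorem dense_poly (h : Lp ℂ 2 (sg n)) (ε : ℝ) (hε : 0 < ε) :
    ∃ p : MvPolynomial (Fin n) ℂ, ‖h - Jp n p‖ ≤ ε := by
  have f1 := sg_finite n
  have hh : MemLp (h : E n → ℂ) 2 (sg n) := Lp.memLp h
  obtain ⟨g, hg, hgm⟩ := hh.exists_boundedContinuous_eLpNorm_sub_le (by norm_num)
    (ε := ENNReal.ofReal (ε / 2)) (by simpa using hε)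
  obtain ⟨S, hS⟩ : ∃ S : ℝ, S = (measureUnivNNReal (sg n) : ℝ) ^ (2 : ℝ≥0∞).toReal⁻¹ := ⟨_, rfl⟩
  have hS0 : 0 ≤ S := by rw [hS]; positivity
  obtain ⟨p, hp⟩ := poly_approx g g.continuous (ε / (2 * (S + 1))) (by positivity)
  refine ⟨p, ?_⟩
  have h1 : ‖h - hgm.toLp g‖ ≤ ε / 2 := by
    have e1 : h = hh.toLp h := (Lp.toLp_coeFn h hh).symm
    rw [e1, ← MemLp.toLp_sub, Lp.norm_toLp]
    refine ENNReal.toReal_le_of_le_ofReal (by positivity) ?_
    exact hg
  have h2 : ‖hgm.toLp g - Jp n p‖ ≤ ε / 2 := by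
    have h3 : ‖hgm.toLp g - Jp n p‖ ≤ S * (ε / (2 * (S + 1))) := by
      rw [hS]
      refine Lp.norm_le_of_ae_bound (by positivity) ?_
      filter_upwards [sg_ae n, Lp.coeFn_sub (hgm.toLp g) (Jp n p), Jp_coe p, hgm.coeFn_toLp]
        with w hw h3 h4 h5
      rw [h3, Pi.sub_apply, h4, h5, norm_sub_rev, ← hS]
      exact hp w hw
    refine h3.trans ?_
    rw [mul_div_assoc', div_le_iff₀ (by positivity)]
    nlinarith
  calc ‖h - Jp n p‖ = ‖(h - hgm.toLp g) + (hgm.toLp g - Jp n p)‖ := by congr 1; abel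
    _ ≤ _ := norm_add_le _ _
    _ ≤ ε := by linarith

variable {B : E n →ₗ[ℝ] E n →ₗ[ℝ] E n} {U : E l →ₗᵢ[ℝ] E n} {X Y : Fin d → E n} {α : Fin d → E l}

theorem ex_scale (B : E n →ₗ[ℝ] E n →ₗ[ℝ] E n) (x : E n) (t : ℝ) (v : E n) :
    ex (B x) t v = ex (B (t • x)) 1 v := by
  unfold ex
  congr 2
  rw [one_smul, map_smul]
  rfl

/-- a homogeneous polynomial which is invariant almost everywhere on the sphere -/
theorem inv_of_ae {k : ℕ} {p : MvPolynomial (Fin n) ℂ} (hp : p.IsHomogeneous k)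
    (L : E n →ₗᵢ[ℝ] E n) (h : Jp n (res L p) = Jp n p) (v : E n) : ev p (L v) = ev p v := by
  have h1 : ev (res L p) =ᵐ[sg n] ev p := (Jp_coe _).symm.trans ((by rw [h] :
    (Jp n (res L p) : E n → ℂ) =ᵐ[sg n] Jp n p).trans (Jp_coe p))
  have h2 : ∀ w : E n, ‖w‖ = 1 → ‖ev (res L p) w - ev p w‖ = 0 := by
    refine sg_zero ((ev_cont _).sub (ev_cont _)).norm (fun w => norm_nonneg _) ?_
    rw [integral_eq_zero_iff_of_nonneg (fun w => norm_nonneg _)]
    · filter_upwards [h1] with w hw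
      rw [hw, sub_self, norm_zero]
      rfl
    · exact sg_int ((ev_cont _).sub (ev_cont _)).norm
  rcases eq_or_ne v 0 with rfl | hv
  · rw [map_zero]
  · have hv1 : ‖v‖ ≠ 0 := norm_ne_zero_iff.2 hv
    have h3 := h2 (‖v‖⁻¹ • v) (by rw [norm_smul, norm_inv, norm_norm, inv_mul_cancel₀ hv1])
    rw [norm_eq_zero, sub_eq_zero, ev_res] at h3
    have h4 : ∀ w : E n, ev p (‖v‖ • w) = ((‖v‖ ^ k : ℝ) : ℂ) * ev p w := fun w =>
      ev_smul k p hp _ _
    have h5 : v = ‖v‖ • (‖v‖⁻¹ • v) := by rw [smul_smul, mul_inv_cancel₀ hv1, one_smul]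
    rw [h5, map_smul, h4, h4, h3]

/-- **closure of the invariant polynomials** -/
theorem inv_closure (hB : CLie B) (h : Lp ℂ 2 (sg n))
    (hinv : ∀ (x : E n) (L : E n ≃ₗᵢ[ℝ] E n), (∀ v, L v = ex (B x) 1 v) →
      Lp.compMeasurePreservingₗᵢ ℂ L (sg_inv L) h = h) (ε : ℝ) (hε : 0 < ε) :
    ∃ b ∈ ⨆ k, WL B U k, ‖h - Jp n b.1‖ ≤ ε := by
  set I0 : Submodule ℂ (Lp ℂ 2 (sg n)) := Submodule.map
    ((Jp n).comp (LinearMap.fst ℂ (MvPolynomial (Fin n) ℂ) (MvPolynomial (Fin l) ℂ)))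
    (⨆ k, WL B U k) with hI0
  set I1 : Submodule ℂ (Lp ℂ 2 (sg n)) := I0.topologicalClosure with hI1
  have hcomp : CompleteSpace I1 := I0.isClosed_topologicalClosure.completeSpace_coe
  -- it suffices to show membership in the closure
  suffices hmem : h ∈ I1 by
    have h1 : h ∈ closure (I0 : Set (Lp ℂ 2 (sg n))) := hmem
    obtain ⟨y, hy, hy2⟩ := Metric.mem_closure_iff.1 h1 ε hε
    obtain ⟨b, hb, rfl⟩ := hy
    refine ⟨b, hb, ?_⟩
    rw [dist_eq_norm] at hy2
    exact hy2.le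
  obtain ⟨y, hy, z, hz, hyz⟩ := I1.exists_add_mem_mem_orthogonal h
  -- the isometries
  have hV : ∀ (L : E n ≃ₗᵢ[ℝ] E n) (p : MvPolynomial (Fin n) ℂ),
      Lp.compMeasurePreservingₗᵢ ℂ L (sg_inv L) (Jp n p) = Jp n (res L.toLinearIsometry p) := by
    intro L p
    rw [Jp_apply, Jp_apply]
    change Lp.compMeasurePreserving L (sg_inv L) _ = _
    rw [Lp.toLp_compMeasurePreserving]
    congr 1
    funext w
    rw [ev_res]
    rfl
  -- elements of the closure are fixed
  have hfixI : ∀ (x : E n) (L : E n ≃ₗᵢ[ℝ] E n), (∀ v, L v = ex (B x) 1 v) → ∀ u ∈ I1,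
      Lp.compMeasurePreservingₗᵢ ℂ L (sg_inv L) u = u := by
    intro x L hL u hu
    have hcl : IsClosed {u : Lp ℂ 2 (sg n) |
        Lp.compMeasurePreservingₗᵢ ℂ L (sg_inv L) u = u} :=
      isClosed_eq (Lp.compMeasurePreservingₗᵢ ℂ L (sg_inv L)).continuous continuous_id
    have hsub : (I0 : Set (Lp ℂ 2 (sg n))) ⊆
        {u | Lp.compMeasurePreservingₗᵢ ℂ L (sg_inv L) u = u} := by
      rintro _ ⟨b, hb, rfl⟩
      have h2 : ∀ v, ev b.1 (L v) = ev b.1 v := by
        intro v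
        refine Submodule.iSup_induction (fun k => WL B U k)
          (motive := fun b => ev b.1 (L v) = ev b.1 v) hb (fun k b hb => ?_) (by simp [ev])
          (fun a b ha hb => ?_)
        · rw [hL, inv_ex hb.2.1]
        · rw [Prod.fst_add, ev_add, ev_add, ha, hb]
      change Lp.compMeasurePreservingₗᵢ ℂ L (sg_inv L) (Jp n b.1) = Jp n b.1
      rw [hV]
      congr 1
      apply poly_ext
      intro w
      rw [ev_res]
      exact h2 w
    exact closure_minimal hsub hcl hu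
  have hzfix : ∀ (x : E n) (L : E n ≃ₗᵢ[ℝ] E n), (∀ v, L v = ex (B x) 1 v) →
      Lp.compMeasurePreservingₗᵢ ℂ L (sg_inv L) z = z := by
    intro x L hL
    have h1 := hinv x L hL
    rw [hyz, map_add, hfixI x L hL y hy] at h1
    exact add_left_cancel h1
  -- the remaining part is orthogonal to all homogeneous polynomials
  have horth : ∀ k, z ∈ (Submodule.map (Jp n)
      (MvPolynomial.homogeneousSubmodule (Fin n) ℂ k))ᗮ := by
    intro k
    set K := Submodule.map (Jp n) (MvPolynomial.homogeneousSubmodule (Fin n) ℂ k) with hK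
    have hfg : K.FG := (MvPolynomial.homogeneousSubmodule_fg (σ := Fin n) (R := ℂ) k).map _
    have hfin : Module.Finite ℂ K := Module.Finite.iff_fg.2 hfg
    obtain ⟨u, hu, u', hu', huu⟩ := K.exists_add_mem_mem_orthogonal z
    obtain ⟨p, hp, hpu⟩ := hu
    have hp' : p.IsHomogeneous k := hp
    -- `u` is fixed
    have hufix : ∀ (x : E n) (L : E n ≃ₗᵢ[ℝ] E n), (∀ v, L v = ex (B x) 1 v) →
        Lp.compMeasurePreservingₗᵢ ℂ L (sg_inv L) u = u := by
      intro x L hL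
      refine proj_fixed _ K ?_ ⟨p, hp, hpu⟩ hu' ?_
      · rintro _ ⟨r, hr, rfl⟩
        rw [hV]
        exact ⟨_, res_hom _ hr, rfl⟩
      · rw [← huu]
        exact hzfix x L hL
    have hpinv : Inv B p := by
      refine inv_of_ex fun x v t => ?_
      rw [ex_scale]
      obtain ⟨L, hL⟩ := ex_iso hB (t • x) 1
      have h1 := hufix (t • x) L hL
      rw [← hpu, hV] at h1
      have h2 := inv_of_ae hp' L.toLinearIsometry h1 v
      rw [← hL]
      exact h2
    have huI : u ∈ I1 := by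
      refine I0.le_topologicalClosure ?_
      refine ⟨(p, res U p), Submodule.mem_iSup_of_mem k ⟨hp', hpinv, rfl⟩, ?_⟩
      exact hpu
    have h0 : inner ℂ u z = 0 := Submodule.inner_right_of_mem_orthogonal huI hz
    have huK : u ∈ K := ⟨p, hp, hpu⟩
    rw [huu, inner_add_right, Submodule.inner_right_of_mem_orthogonal huK hu',
      add_zero, inner_self_eq_zero] at h0
    rw [huu, h0, zero_add]
    exact hu'
  have hall : ∀ p : MvPolynomial (Fin n) ℂ, inner ℂ (Jp n p) z = 0 := by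
    intro p
    rw [← MvPolynomial.sum_homogeneousComponent p, map_sum, sum_inner]
    refine Finset.sum_eq_zero fun k _ => ?_
    have hm : Jp n (MvPolynomial.homogeneousComponent k p) ∈ Submodule.map (Jp n)
        (MvPolynomial.homogeneousSubmodule (Fin n) ℂ k) :=
      ⟨_, MvPolynomial.homogeneousComponent_isHomogeneous k p, rfl⟩
    exact Submodule.inner_right_of_mem_orthogonal hm (horth k)
  have hz0 : z = 0 := by
    by_contra hne
    have hzn : 0 < ‖z‖ := norm_pos_iff.2 hne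
    obtain ⟨p, hp⟩ := dense_poly z (‖z‖ / 2) (by positivity)
    have h1 : inner ℂ z z = inner ℂ (z - Jp n p) z := by
      rw [inner_sub_left, hall, sub_zero]
    have h2 : ‖z‖ ^ 2 ≤ ‖z - Jp n p‖ * ‖z‖ := by
      have h3 := norm_inner_le_norm (𝕜 := ℂ) (z - Jp n p) z
      rw [← h1, inner_self_eq_norm_sq_to_K] at h3
      simpa using h3
    nlinarith
  rw [hyz, hz0, add_zero]
  exact hy

end Pool.Agent.H72.Li
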