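import Mathlib
import Pool.Agent.H72.Li.L9
set_option autoImplicit false

/-! The bound for invariant functions. -/

open MeasureTheory Set Metric
open scoped ENNReal RealInnerProductSpace

namespace Pool.Agent.H72.Li

open Pool.Agent.H789R2.FR (E sg T sg_finite sg_ae sg_inv)
open Pool.Agent.TH335.RF
open Pool.Agent.W5h55.SH
open Pool.Agent.H72.Co

variable {n l d : ℕ}
variable {B : E n →ₗ[ℝ] E n →ₗ[ℝ] E n} {U : E l →ₗᵢ[ℝ] E n} {X Y : Fin d → E n} {α : Fin d → E l}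

theorem T_congr_ae {f g : E n → ℂ} (h : f =ᵐ[sg n] g) (x : E n) : T f x = T g x := by
  unfold T
  refine integral_congr_ae ?_
  filter_upwards [h] with w hw
  rw [hw]

/-- the limit of a sequence coded in the coordinates, cut off at height one -/
noncomputable def Gam (x : ℕ × Bool → ℝ) : ℂ :=
  if ‖Filter.limUnder Filter.atTop (fun j : ℕ => ((x (j, true) : ℝ) : ℂ) + ((x (j, false) : ℝ) : ℂ) * Complex.I)‖ ≤ 1
  then Filter.limUnder Filter.atTop (fun j : ℕ => ((x (j, true) : ℝ) : ℂ) + ((x (j, false) : ℝ) : ℂ) * Complex.I)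
  else 0

theorem Gam_meas : Measurable Gam := by
  have h1 : StronglyMeasurable fun x : ℕ × Bool → ℝ => Filter.limUnder Filter.atTop
      (fun j : ℕ => ((x (j, true) : ℝ) : ℂ) + ((x (j, false) : ℝ) : ℂ) * Complex.I) := by
    refine StronglyMeasurable.limUnder fun j => ?_
    exact (Continuous.stronglyMeasurable (by fun_prop))
  have h2 := h1.measurable
  exact Measurable.ite (measurableSet_le h2.norm measurable_const) h2 measurable_const

theorem Gam_le (x : ℕ × Bool → ℝ) : ‖Gam x‖ ≤ 1 := by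
  unfold Gam
  split_ifs with h
  · exact h
  · simp

/-- a bounded invariant function is a function of countably many invariant polynomials -/
theorem inv_factor (hB : CLie B) (f : E n → ℂ) (hf : Measurable f) (hf1 : ∀ w, ‖w‖ = 1 → ‖f w‖ ≤ 1)
    (hinv : ∀ x v, ‖v‖ = 1 → f (ex (B x) 1 v) = f v) :
    ∃ b : ℕ → MvPolynomial (Fin n) ℂ × MvPolynomial (Fin l) ℂ, (∀ j, b j ∈ ⨆ k, WL B U k) ∧
      ∀ᵐ w ∂(sg n), Filter.Tendsto (fun j => ev (b j).1 w) Filter.atTop (nhds (f w)) := by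
  have f1 := sg_finite n
  have hm : MemLp f 2 (sg n) := by
    refine MemLp.of_bound hf.aestronglyMeasurable 1 ?_
    filter_upwards [sg_ae n] with w hw
    exact hf1 w hw
  have hfix : ∀ (x : E n) (L : E n ≃ₗᵢ[ℝ] E n), (∀ v, L v = ex (B x) 1 v) →
      Lp.compMeasurePreservingₗᵢ ℂ L (sg_inv L) (hm.toLp f) = hm.toLp f := by
    intro x L hL
    change Lp.compMeasurePreserving L (sg_inv L) _ = _
    rw [Lp.toLp_compMeasurePreserving, MemLp.toLp_eq_toLp_iff]
    filter_upwards [sg_ae n] with w hw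
    rw [Function.comp_apply, hL, hinv x w hw]
  have h1 : ∀ j : ℕ, ∃ b ∈ ⨆ k, WL B U k, ‖hm.toLp f - Jp n b.1‖ ≤ 1 / ((j : ℝ) + 1) :=
    fun j => inv_closure hB _ hfix _ (by positivity)
  choose b hb hb1 using h1
  have h2 : Filter.Tendsto (fun j => Jp n (b j).1) Filter.atTop (nhds (hm.toLp f)) := by
    rw [tendsto_iff_norm_sub_tendsto_zero]
    refine squeeze_zero (fun j => norm_nonneg _) (fun j => ?_)
      (tendsto_one_div_add_atTop_nhds_zero_nat (𝕜 := ℝ))
    rw [norm_sub_rev]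
    exact hb1 j
  obtain ⟨ns, -, hns⟩ := (tendstoInMeasure_of_tendsto_Lp h2).exists_seq_tendsto_ae
  refine ⟨fun j => b (ns j), fun j => hb _, ?_⟩
  have h3 : ∀ᵐ w ∂(sg n), ∀ j, (Jp n (b (ns j)).1 : E n → ℂ) w = ev (b (ns j)).1 w :=
    ae_all_iff.2 fun j => Jp_coe _
  filter_upwards [hns, h3, hm.coeFn_toLp] with w hw1 hw2 hw3
  rw [hw3] at hw1
  simpa only [hw2] using hw1

/-- **the bound for invariant functions** -/
theorem lie_T {m : ℕ} {U : E (1 + m) →ₗᵢ[ℝ] E n} {α : Fin d → E (1 + m)} (hB : CLie B)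
    (hR : Root B U X Y α) (hm : 1 ≤ m) (hd : 1 ≤ d) (P : ℝ) (hP : 2 < P) (hyp : Hyp 3 m P) (q0 : ℝ)
    (hq0 : 1 < (q0 - 2) * ((d : ℝ) + 1 / (P - 2))) :
    ∃ C : ℝ, 0 < C ∧ ∀ f : E n → ℂ, Measurable f → (∀ w, ‖w‖ = 1 → ‖f w‖ ≤ 1) →
      (∀ x v, ‖v‖ = 1 → f (ex (B x) 1 v) = f v) →
      ∫⁻ x, ‖T f x‖ₑ ^ q0 ≤ ENNReal.ofReal C := by
  have hS := sysL hB hR (by omega) (PiR_harm hB hR)
  obtain ⟨C, hC, h⟩ := hS.bound (reflL hB hR) hd P hP hyp q0 hq0
  have hq2 : 0 ≤ q0 := by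
    by_contra hcon
    push Not at hcon
    have h1 : 0 < 1 / (P - 2) := by
      have : 0 < P - 2 := by linarith
      positivity
    have h2 : (0 : ℝ) ≤ d := Nat.cast_nonneg d
    nlinarith
  refine ⟨C, hC, fun f hf hf1 hinv => ?_⟩
  obtain ⟨b, hb, hlim⟩ := inv_factor (U := U) hB f hf hf1 hinv
  -- real and imaginary parts
  have hbr : ∀ j, ∃ c ∈ ⨆ k, WL B U k, ∀ w : E n, ev c.1 w = (((ev (b j).1 w).re : ℝ) : ℂ) := by
    intro j
    refine ⟨(1 / 2 : ℂ) • (b j + (cj (b j).1, cj (b j).2)),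
      Submodule.smul_mem _ _ (Submodule.add_mem _ (hb j) (hS.starV (hb j))), fun w => ?_⟩
    rw [Prod.smul_fst, Prod.fst_add, MvPolynomial.smul_eq_C_mul, ev_mul, ev_C, ev_add, ev_cj,
      Complex.re_eq_add_conj]
    ring
  have hbi : ∀ j, ∃ c ∈ ⨆ k, WL B U k, ∀ w : E n, ev c.1 w = (((ev (b j).1 w).im : ℝ) : ℂ) := by
    intro j
    refine ⟨(1 / (2 * Complex.I) : ℂ) • (b j - (cj (b j).1, cj (b j).2)),
      Submodule.smul_mem _ _ (Submodule.sub_mem _ (hb j) (hS.starV (hb j))), fun w => ?_⟩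
    rw [Prod.smul_fst, Prod.fst_sub, MvPolynomial.smul_eq_C_mul, ev_mul, ev_C, sub_eq_add_neg,
      ev_add, Complex.im_eq_sub_conj]
    have h5 : ev (-cj (b j).1) w = -starRingEnd ℂ (ev (b j).1 w) := by
      rw [← ev_cj]
      simp [ev]
    rw [h5]
    ring
  set e : E n → ℕ × Bool → ℝ := fun w s => if s.2 then (ev (b s.1).1 w).re else (ev (b s.1).1 w).im
    with he
  have hec : Continuous e := by
    refine continuous_pi fun s => ?_
    rcases s with ⟨j, s⟩
    cases s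
    · exact Complex.continuous_im.comp (ev_cont _)
    · exact Complex.continuous_re.comp (ev_cont _)
  have hfe : f =ᵐ[sg n] fun w => Gam (e w) := by
    filter_upwards [hlim, sg_ae n] with w hw hw1
    have h3 : ∀ j : ℕ, ((e w (j, true) : ℝ) : ℂ) + ((e w (j, false) : ℝ) : ℂ) * Complex.I =
        ev (b j).1 w := by
      intro j
      simp only [he, if_true, Bool.false_eq_true, if_false]
      exact Complex.re_add_im _
    have h4 : Filter.limUnder Filter.atTop (fun j : ℕ => ((e w (j, true) : ℝ) : ℂ) +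
        ((e w (j, false) : ℝ) : ℂ) * Complex.I) = f w := by
      simp only [h3]
      exact hw.limUnder_eq
    unfold Gam
    rw [h4, if_pos (hf1 w hw1)]
  have h5 : ∀ x, T f x = T (fun w => Gam (e w)) x := T_congr_ae hfe
  simp only [h5]
  refine limit_bound {p | ∃ b ∈ ⨆ k, WL B U k, b.1 = p} q0 C hq2 ?_ _
    (Gam_meas.comp hec.measurable) (fun w _ => Gam_le _) ?_
  · rintro p ⟨b, hb, rfl⟩ hb1
    exact h b hb hb1
  · intro ε hε
    obtain ⟨c, hc, hc1, hc2⟩ := hS.approx e hec (fun s => by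
      rcases s with ⟨j, s⟩
      cases s
      · obtain ⟨c, hc, hc1⟩ := hbi j
        exact ⟨c, hc, fun w _ => hc1 w⟩
      · obtain ⟨c, hc, hc1⟩ := hbr j
        exact ⟨c, hc, fun w _ => hc1 w⟩) Gam Gam_meas Gam_le ε hε
    exact ⟨c.1, ⟨c, hc, rfl⟩, hc1, hc2⟩

end Pool.Agent.H72.Li
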